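import Pool.Agent.Helper94.EP.Defs
import Pool.Agent.Helper95.TR.TR4

/-!
Project EP (MP_b8862a_ag), block EP-E: type `A`, the sums `ν i + ν j` are roots.
-/

set_option linter.unusedSectionVars false
set_option linter.unusedVariables false

namespace EP

open PF PG TR

variable {E : Type*} [NormedAddCommGroup E] [InnerProductSpace ℝ E] {Φ X : Finset E} {ℓ : E →ₗ[ℝ] ℝ} {c : ℝ}
  {p : ℕ} {ν : ℕ → E} {l : ℝ}

/-- not orthogonal to all differences of the top weights -/
def Nc (p : ℕ) (ν : ℕ → E) (g : E) : Prop := ∃ i < p, ∃ j < p, (inner ℝ (ν i) g : ℝ) ≠ inner ℝ (ν j) g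

/-- the types of the roots of positive level -/
def Pt (p : ℕ) (ν : ℕ → E) (l : ℝ) (g : E) : Prop :=
  (∀ i < p, ∀ j < p, (inner ℝ (ν i) g : ℝ) = inner ℝ (ν j) g) ∨
  (∃ k < p, ∀ i < p, inner ℝ (ν i) g = if i = k then l / 2 else (0 : ℝ)) ∨
  (∃ k < p, ∃ m < p, k ≠ m ∧ ∀ i < p, inner ℝ (ν i) g = if i = k ∨ i = m then l / 2 else (0 : ℝ)) ∨
  (∃ k < p, ∀ i < p, inner ℝ (ν i) g = if i = k then l else (0 : ℝ))

/-- the types of the roots of level zero -/
def Zt (p : ℕ) (ν : ℕ → E) (g : E) : Prop :=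
  (∃ i < p, ∃ j < p, i ≠ j ∧ g = ν i - ν j) ∨ ∀ i < p, (inner ℝ (ν i) g : ℝ) = 0

/-- the data -/
structure EB (Φ X : Finset E) (ℓ : E →ₗ[ℝ] ℝ) (c : ℝ) (p : ℕ) (ν : ℕ → E) (l : ℝ) : Prop extends EA Φ X ℓ c p ν l where
  pt : ∀ g ∈ Φ, 0 < ℓ g → Pt p ν l g
  zt : ∀ g ∈ Φ, ℓ g = 0 → Zt p ν g

theorem EA.gram (A : EA Φ X ℓ c p ν l) : ∃ M : ℝ, ∀ i < p, ∀ j < p, inner ℝ (ν i) (ν j) = if i = j then M + l / 2 else M := by
  have hp := A.ep.five
  have off : ∀ k < p, ∀ i < p, ∀ j < p, k ≠ i → k ≠ j → (inner ℝ (ν k) (ν i) : ℝ) = inner ℝ (ν k) (ν j) := by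
    intro k hk i hi j hj hki hkj
    have h1 := A.inn k hk i hi j hj
    rw [inner_sub_right, if_neg hki, if_neg hkj, sub_self, mul_zero] at h1
    linarith
  have diag : ∀ k < p, ∀ j < p, k ≠ j → (inner ℝ (ν k) (ν k) : ℝ) = inner ℝ (ν k) (ν j) + l / 2 := by
    intro k hk j hj hkj
    have h1 := A.inn k hk k hk j hj
    rw [inner_sub_right, if_pos rfl, if_neg hkj, sub_zero, mul_one] at h1
    linarith
  refine ⟨inner ℝ (ν 0) (ν 1), ?_⟩
  have key : ∀ i < p, ∀ j < p, i ≠ j → (inner ℝ (ν i) (ν j) : ℝ) = inner ℝ (ν 0) (ν 1) := by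
    intro i hi j hj hij
    by_cases h0 : i = 0
    · subst h0
      exact off 0 hi j hj 1 (by omega) hij (by omega)
    · by_cases h1 : j = 0
      · subst h1
        rw [real_inner_comm]
        exact off 0 hj i hi 1 (by omega) (Ne.symm h0) (by omega)
      · rw [off i hi j hj 0 (by omega) hij h0, real_inner_comm]
        exact off 0 (by omega) i hi 1 (by omega) (Ne.symm h0) (by omega)
  intro i hi j hj
  by_cases hij : i = j
  · subst hij
    rw [if_pos rfl]
    obtain ⟨k, hk, hik⟩ : ∃ k < p, i ≠ k := by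
      by_cases h : i = 0
      · exact ⟨1, by omega, by omega⟩
      · exact ⟨0, by omega, h⟩
    rw [diag i hi k hk hik, key i hi k hk hik]
  · rw [if_neg hij, key i hi j hj hij]

theorem EA.lev_sub (A : EA Φ X ℓ c p ν l) {i j : ℕ} (hi : i < p) (hj : j < p) : ℓ (ν i - ν j) = 0 := by
  rw [map_sub, (A.ep.mem hi).2, (A.ep.mem hj).2, sub_self]

/-- (3.2) Every root is not orthogonal to some root of nonzero type. -/
theorem EA.near_nc (A : EA Φ X ℓ c p ν l) : ∀ g ∈ Φ, ∃ ρ ∈ Φ, Nc p ν ρ ∧ (inner ℝ g ρ : ℝ) ≠ 0 := by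
  classical
  have C := A.ep
  have hp := C.five
  obtain ⟨S, hS⟩ : ∃ S : Finset E, ∀ c, c ∈ S ↔ c ∈ Φ ∧ ∃ ρ ∈ Φ, Nc p ν ρ ∧ (inner ℝ c ρ : ℝ) ≠ 0 :=
    ⟨Φ.filter fun c => ∃ ρ ∈ Φ, Nc p ν ρ ∧ (inner ℝ c ρ : ℝ) ≠ 0, fun c => by simp⟩
  have hnc : Nc p ν (ν 0 - ν 1) := by
    refine ⟨0, by omega, 1, by omega, ?_⟩
    rw [A.inn 0 (by omega) 0 (by omega) 1 (by omega), A.inn 1 (by omega) 0 (by omega) 1 (by omega)]
    have := A.lpos
    norm_num
    linarith
  have h1 : S = Φ := by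
    refine C.rs.irr S (fun c hc => ((hS c).1 hc).1) ⟨ν 0 - ν 1, (hS _).2 ⟨A.mem 0 (by omega) 1 (by omega) (by omega),
      _, A.mem 0 (by omega) 1 (by omega) (by omega), hnc, (C.pos (A.mem 0 (by omega) 1 (by omega) (by omega))).ne'⟩⟩ ?_
    intro c hc e he heS
    by_contra hce
    obtain ⟨hcΦ, ρ, hρ, hρn, hcρ⟩ := (hS c).1 hc
    have hno : ∀ σ ∈ Φ, Nc p ν σ → (inner ℝ e σ : ℝ) = 0 := by
      intro σ hσ hσn
      by_contra h
      exact heS ((hS e).2 ⟨he, σ, hσ, hσn, h⟩)
    by_cases hcn : Nc p ν c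
    · apply hce
      rw [real_inner_comm]
      exact hno c hcΦ hcn
    · have h2 : Nc p ν (ρ - co c ρ • c) := by
        unfold Nc at hcn
        push Not at hcn
        obtain ⟨i, hi, j, hj, hij⟩ := hρn
        refine ⟨i, hi, j, hj, ?_⟩
        rw [inner_sub_right, inner_sub_right, inner_smul_right, inner_smul_right, hcn i hi j hj]
        intro h
        apply hij
        linarith
      have h3 := hno _ (C.refl hcΦ hρ) h2
      rw [inner_sub_right, inner_smul_right, hno ρ hρ hρn, zero_sub, neg_eq_zero] at h3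
      rcases mul_eq_zero.1 h3 with h4 | h4
      · apply hcρ
        rw [real_inner_comm]
        exact (inn_eq_zero C.rs hcΦ ρ).2 h4
      · apply hce
        rw [real_inner_comm]
        exact h4
  intro g hg
  rw [← h1] at hg
  exact ((hS g).1 hg).2

/-- A vector orthogonal to the roots of nonzero type is orthogonal to all roots. -/
theorem EA.orth94 (A : EA Φ X ℓ c p ν l) {y : E} (hy : ∀ g ∈ Φ, Nc p ν g → (inner ℝ y g : ℝ) = 0) :
    ∀ g ∈ Φ, (inner ℝ y g : ℝ) = 0 := by
  intro g hg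
  have C := A.ep
  by_cases hn : Nc p ν g
  · exact hy g hg hn
  · obtain ⟨ρ, hρ, hρn, hgρ⟩ := A.near_nc g hg
    have h2 : Nc p ν (ρ - co g ρ • g) := by
      unfold Nc at hn
      push Not at hn
      obtain ⟨i, hi, j, hj, hij⟩ := hρn
      refine ⟨i, hi, j, hj, ?_⟩
      rw [inner_sub_right, inner_sub_right, inner_smul_right, inner_smul_right, hn i hi j hj]
      intro h
      apply hij
      linarith
    have h3 := hy _ (C.refl hg hρ) h2
    rw [inner_sub_right, inner_smul_right, hy ρ hρ hρn, zero_sub, neg_eq_zero] at h3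
    rcases mul_eq_zero.1 h3 with h4 | h4
    · exfalso
      apply hgρ
      rw [real_inner_comm]
      exact (inn_eq_zero C.rs hg ρ).2 h4
    · exact h4

/-- A vector of the span orthogonal to the roots is zero. -/
theorem zero_of_orth {y : E} (hy : y ∈ Submodule.span ℝ (Φ : Set E)) (h : ∀ g ∈ Φ, (inner ℝ y g : ℝ) = 0) : y = 0 := by
  have h1 : ∀ z ∈ Submodule.span ℝ (Φ : Set E), (inner ℝ y z : ℝ) = 0 := by
    intro z hz
    induction hz using Submodule.span_induction with
    | mem z hz => exact h z hz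
    | zero => exact inner_zero_right _
    | add z w _ _ h3 h4 => rw [inner_add_right, h3, h4, add_zero]
    | smul a z _ h3 => rw [inner_smul_right, h3, mul_zero]
  exact inner_self_eq_zero.1 (h1 y hy)

section eb

variable (A : EB Φ X ℓ c p ν l)
include A

/-- the exchange of an index -/
theorem EB.shift {g : E} (hg : g ∈ Φ) (h0 : ℓ g ≠ 0) {i j : ℕ} (hi : i < p) (hj : j < p) (hij : i ≠ j)
    (h : (0 : ℝ) < inner ℝ (ν i) g - inner ℝ (ν j) g) : g - (ν i - ν j) ∈ Φ ∧ ℓ (g - (ν i - ν j)) = ℓ g := by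
  have h1 := A.lev_sub hi hj
  refine ⟨A.ep.rs.sub_mem hg (A.mem i hi j hj hij) ?_ ?_, by rw [map_sub, h1, sub_zero]⟩
  · rw [inner_sub_right, real_inner_comm (ν i) g, real_inner_comm (ν j) g]
    exact h
  · rintro rfl
    exact h0 h1

/-- A positive root has at most two nonzero products with the top weights, unless all are equal. -/
theorem EB.not_three {g : E} (hg : g ∈ Φ) (h0 : 0 < ℓ g) {i j k m : ℕ} (hi : i < p) (hj : j < p) (hk : k < p)
    (hm : m < p) (hij : i ≠ j) (hik : i ≠ k) (hjk : j ≠ k) (h1 : (inner ℝ (ν i) g : ℝ) ≠ 0)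
    (h2 : (inner ℝ (ν j) g : ℝ) ≠ 0) (h3 : (inner ℝ (ν k) g : ℝ) ≠ 0) (h4 : (inner ℝ (ν m) g : ℝ) = 0) : False := by
  rcases A.pt g hg h0 with h | ⟨a, ha, h⟩ | ⟨a, ha, b, hb, hab, h⟩ | ⟨a, ha, h⟩
  · exact h1 (by rw [h i hi m hm, h4])
  · rw [h i hi] at h1
    rw [h j hj] at h2
    have e1 : i = a := by
      by_contra hc
      exact h1 (if_neg hc)
    have e2 : j = a := by
      by_contra hc
      exact h2 (if_neg hc)
    exact hij (e1.trans e2.symm)
  · rw [h i hi] at h1
    rw [h j hj] at h2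
    rw [h k hk] at h3
    have e1 : i = a ∨ i = b := by
      by_contra hc
      exact h1 (if_neg hc)
    have e2 : j = a ∨ j = b := by
      by_contra hc
      exact h2 (if_neg hc)
    have e3 : k = a ∨ k = b := by
      by_contra hc
      exact h3 (if_neg hc)
    omega
  · rw [h i hi] at h1
    rw [h j hj] at h2
    have e1 : i = a := by
      by_contra hc
      exact h1 (if_neg hc)
    have e2 : j = a := by
      by_contra hc
      exact h2 (if_neg hc)
    exact hij (e1.trans e2.symm)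

/-- the norm of a root which is not orthogonal to a difference -/
theorem EB.len {g : E} (hg : g ∈ Φ) {i j : ℕ} (hi : i < p) (hj : j < p) (hij : i ≠ j)
    (h : inner ℝ (ν i) g - inner ℝ (ν j) g = l / 2) : (inner ℝ g g : ℝ) = l ∨ (inner ℝ g g : ℝ) = l / 2 := by
  have C := A.ep
  have hl := A.lpos
  have ha := A.mem i hi j hj hij
  obtain ⟨k, hk⟩ := C.rs.int g hg _ ha
  have h2 := C.le2 g hg _ ha
  have h3 := inn C.rs hg (ν i - ν j)
  rw [inner_sub_left, h, hk] at h3
  rw [hk] at h2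
  have h4 := C.pos hg
  have h5 : 0 < k := by
    by_contra hc
    push Not at hc
    have : (k : ℝ) ≤ 0 := by exact_mod_cast hc
    nlinarith
  have h6 : k ≤ 2 := by exact_mod_cast h2
  have h7 : k = 1 ∨ k = 2 := by omega
  rcases h7 with rfl | rfl
  · left
    push_cast at h3
    linarith
  · right
    push_cast at h3
    linarith

/-! ### A root of type `e_k + e_m` -/

section two

variable {M : ℝ} (hM : ∀ i < p, ∀ j < p, inner ℝ (ν i) (ν j) = if i = j then M + l / 2 else M)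
  {g : E} (hg : g ∈ Φ) (h0 : 0 < ℓ g) {k m : ℕ} (hk : k < p) (hm : m < p) (hkm : k ≠ m)
  (hT : ∀ i < p, inner ℝ (ν i) g = if i = k ∨ i = m then l / 2 else (0 : ℝ))
include hM hg h0 hk hm hkm hT

/-- the products with `y = ν k + ν m - g` -/
theorem EB.y_inn {a : ℕ} (ha : a < p) : (inner ℝ (ν a) (ν k + ν m - g) : ℝ) = 2 * M := by
  rw [inner_sub_right, inner_add_right, hT a ha, hM a ha k hk, hM a ha m hm]
  by_cases h1 : a = k
  · by_cases h2 : a = m
    · exact absurd (h1.symm.trans h2) hkm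
    · rw [if_pos h1, if_neg h2, if_pos (Or.inl h1)]
      ring
  · by_cases h2 : a = m
    · rw [if_neg h1, if_pos h2, if_pos (Or.inr h2)]
      ring
    · rw [if_neg h1, if_neg h2, if_neg (by rintro (h | h) <;> contradiction)]
      ring

/-- the products with `ν i + ν j - y` -/
theorem EB.r_inn {i j : ℕ} (hi : i < p) (hj : j < p) (hij : i ≠ j) {a : ℕ} (ha : a < p) :
    inner ℝ (ν a) (ν i + ν j - (ν k + ν m - g)) = if a = i ∨ a = j then l / 2 else (0 : ℝ) := by
  rw [inner_sub_right, A.y_inn hM hg h0 hk hm hkm hT ha, inner_add_right, hM a ha i hi, hM a ha j hj]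
  by_cases h1 : a = i
  · by_cases h2 : a = j
    · exact absurd (h1.symm.trans h2) hij
    · rw [if_pos h1, if_neg h2, if_pos (Or.inl h1)]
      ring
  · by_cases h2 : a = j
    · rw [if_neg h1, if_pos h2, if_pos (Or.inr h2)]
      ring
    · rw [if_neg h1, if_neg h2, if_neg (by rintro (h | h) <;> contradiction)]
      ring

theorem EB.r_lev {i j : ℕ} (hi : i < p) (hj : j < p) : ℓ (ν i + ν j - (ν k + ν m - g)) = ℓ g := by
  rw [map_sub, map_add, map_sub, map_add, (A.ep.mem hi).2, (A.ep.mem hj).2, (A.ep.mem hk).2, (A.ep.mem hm).2]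
  ring

/-- exchange -/
theorem EB.r_shift {i j a : ℕ} (hi : i < p) (hj : j < p) (ha : a < p) (hij : i ≠ j) (hai : a ≠ i) (haj : a ≠ j)
    (h : ν i + ν j - (ν k + ν m - g) ∈ Φ) : ν a + ν j - (ν k + ν m - g) ∈ Φ := by
  have hl := A.lpos
  have h1 := A.shift h (by rw [A.r_lev hM hg h0 hk hm hkm hT hi hj]; exact h0.ne') hi ha (Ne.symm hai) (by
    rw [A.r_inn hM hg h0 hk hm hkm hT hi hj hij hi, A.r_inn hM hg h0 hk hm hkm hT hi hj hij ha, if_pos (Or.inl rfl),
      if_neg (by rintro (h | h) <;> contradiction)]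
    linarith)
  have h2 := h1.1
  have h3 : ν i + ν j - (ν k + ν m - g) - (ν i - ν a) = ν a + ν j - (ν k + ν m - g) := by abel
  rwa [h3] at h2

/-- all the sums minus `y` are roots -/
theorem EB.r_mem {i j : ℕ} (hi : i < p) (hj : j < p) (hij : i ≠ j) : ν i + ν j - (ν k + ν m - g) ∈ Φ := by
  have h1 : ν k + ν m - (ν k + ν m - g) ∈ Φ := by
    have : ν k + ν m - (ν k + ν m - g) = g := by abel
    rwa [this]
  have hsym : ∀ a b : ℕ, ν a + ν b - (ν k + ν m - g) ∈ Φ → ν b + ν a - (ν k + ν m - g) ∈ Φ := by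
    intro a b h
    rwa [add_comm (ν b)]
  -- first index
  obtain ⟨b, hb, hbi, h2⟩ : ∃ b < p, b ≠ i ∧ ν i + ν b - (ν k + ν m - g) ∈ Φ := by
    by_cases h2 : i = k
    · exact ⟨m, hm, by rw [h2]; exact Ne.symm hkm, by rw [h2]; exact h1⟩
    · by_cases h3 : i = m
      · exact ⟨k, hk, by rw [h3]; exact hkm, by rw [h3]; exact hsym _ _ h1⟩
      · exact ⟨m, hm, Ne.symm h3, A.r_shift hM hg h0 hk hm hkm hT hk hm hi hkm h2 h3 h1⟩
  by_cases h3 : j = b
  · rw [h3]; exact h2
  · exact hsym _ _ (A.r_shift hM hg h0 hk hm hkm hT hb hi hj hbi h3 (Ne.symm hij) (hsym _ _ h2))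

omit A hM hg h0 hk hm hkm hT in
theorem exp_g (x y g z : E) : (inner ℝ g z : ℝ) = inner ℝ x z + inner ℝ y z - inner ℝ (x + y - g) z := by
  rw [inner_sub_left, inner_add_left]
  ring

/-- the square of `y` -/
theorem EB.y_sq : (inner ℝ g g : ℝ) = l - 4 * M + inner ℝ (ν k + ν m - g) (ν k + ν m - g) := by
  have h2 := exp_g (ν k) (ν m) g g
  have h3 : (inner ℝ (ν k + ν m - g) (ν k + ν m - g) : ℝ) = 4 * M - inner ℝ (ν k + ν m - g) g := by
    rw [inner_sub_right (ν k + ν m - g) (ν k + ν m) g, inner_add_right, real_inner_comm (ν k), real_inner_comm (ν m),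
      A.y_inn hM hg h0 hk hm hkm hT hk, A.y_inn hM hg h0 hk hm hkm hT hm]
    ring
  rw [hT k hk, hT m hm, if_pos (Or.inl rfl), if_pos (Or.inr rfl)] at h2
  linarith

theorem EB.y_g {i j : ℕ} (hi : i < p) (hj : j < p) :
    (inner ℝ (ν k + ν m - g) (ν i + ν j - (ν k + ν m - g)) : ℝ) = l - inner ℝ g g := by
  rw [inner_sub_right, inner_add_right, real_inner_comm (ν i), real_inner_comm (ν j),
    A.y_inn hM hg h0 hk hm hkm hT hi, A.y_inn hM hg h0 hk hm hkm hT hj, A.y_sq hM hg h0 hk hm hkm hT]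
  ring

/-- the norm of a root of type `e_k + e_m` -/
theorem EB.g_len : (inner ℝ g g : ℝ) = l := by
  have C := A.ep
  have hp := C.five
  have hl := A.lpos
  -- four indices
  obtain ⟨a, ha, hak, ham⟩ : ∃ a < p, a ≠ k ∧ a ≠ m := by
    by_cases e0 : (0 : ℕ) ≠ k ∧ (0 : ℕ) ≠ m
    · exact ⟨0, by omega, e0.1, e0.2⟩
    · by_cases e1 : (1 : ℕ) ≠ k ∧ (1 : ℕ) ≠ m
      · exact ⟨1, by omega, e1.1, e1.2⟩
      · exact ⟨2, by omega, by omega, by omega⟩
  obtain ⟨b, hb, hbk, hbm, hba⟩ : ∃ b < p, b ≠ k ∧ b ≠ m ∧ b ≠ a := by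
    by_cases e0 : (0 : ℕ) ≠ k ∧ (0 : ℕ) ≠ m ∧ 0 ≠ a
    · exact ⟨0, by omega, e0.1, e0.2.1, e0.2.2⟩
    · by_cases e1 : (1 : ℕ) ≠ k ∧ (1 : ℕ) ≠ m ∧ 1 ≠ a
      · exact ⟨1, by omega, e1.1, e1.2.1, e1.2.2⟩
      · by_cases e2 : (2 : ℕ) ≠ k ∧ (2 : ℕ) ≠ m ∧ 2 ≠ a
        · exact ⟨2, by omega, e2.1, e2.2.1, e2.2.2⟩
        · exact ⟨3, by omega, by omega, by omega, by omega⟩
  rcases A.len hg hk ha (Ne.symm hak) (by
    rw [hT k hk, hT a ha, if_pos (Or.inl rfl), if_neg (by rintro (h | h) <;> contradiction)]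
    ring) with h | h
  · exact h
  · exfalso
    -- `g` and the complementary root are opposite
    have h1 := A.r_mem hM hg h0 hk hm hkm hT ha hb (Ne.symm hba)
    have h2 := A.r_lev hM hg h0 hk hm hkm hT ha hb
    have h3 : (inner ℝ g (ν a + ν b - (ν k + ν m - g)) : ℝ) = -(l / 2) := by
      rw [exp_g (ν k) (ν m) g, A.r_inn hM hg h0 hk hm hkm hT ha hb (Ne.symm hba) hk,
        A.r_inn hM hg h0 hk hm hkm hT ha hb (Ne.symm hba) hm,
        A.y_g hM hg h0 hk hm hkm hT ha hb, if_neg (by rintro (h | h) <;> omega), if_neg (by rintro (h | h) <;> omega), h]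
      ring
    have h4 : (inner ℝ (ν a + ν b - (ν k + ν m - g)) (ν a + ν b - (ν k + ν m - g)) : ℝ) = l / 2 := by
      rw [inner_sub_left, inner_add_left, A.r_inn hM hg h0 hk hm hkm hT ha hb (Ne.symm hba) ha,
        A.r_inn hM hg h0 hk hm hkm hT ha hb (Ne.symm hba) hb, A.y_g hM hg h0 hk hm hkm hT ha hb, if_pos (Or.inl rfl),
        if_pos (Or.inr rfl), h]
      ring
    have h5 : (inner ℝ (g + (ν a + ν b - (ν k + ν m - g))) (g + (ν a + ν b - (ν k + ν m - g))) : ℝ) = 0 := by
      rw [inner_add_left, inner_add_right, inner_add_right, real_inner_comm g (ν a + ν b - (ν k + ν m - g)), h3, h4, h]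
      ring
    have h6 := inner_self_eq_zero.1 h5
    have h7 := congrArg ℓ h6
    rw [map_add, h2, map_zero] at h7
    linarith

/-- `y` is orthogonal to the roots of type `e_a + e_b`. -/
theorem EB.y_T2 {h : E} (hh : h ∈ Φ) (hh0 : 0 < ℓ h) {a b : ℕ} (ha : a < p) (hb : b < p) (hab : a ≠ b)
    (hT' : ∀ i < p, inner ℝ (ν i) h = if i = a ∨ i = b then l / 2 else (0 : ℝ)) :
    (inner ℝ (ν k + ν m - g) h : ℝ) = 0 := by
  have C := A.ep
  have hp := C.five
  have hl := A.lpos
  have hlen := A.g_len hM hg h0 hk hm hkm hT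
  have hlen' := A.g_len hM hh hh0 ha hb hab hT'
  have hr : ∀ i < p, ∀ j < p, (inner ℝ h (ν i + ν j - (ν k + ν m - g)) : ℝ) =
      inner ℝ (ν i) h + inner ℝ (ν j) h - inner ℝ (ν k + ν m - g) h := by
    intro i hi j hj
    rw [inner_sub_right, inner_add_right, real_inner_comm (ν i) h, real_inner_comm (ν j) h,
      real_inner_comm (ν k + ν m - g) h]
  -- three more indices
  obtain ⟨i, hi, hia, hib⟩ : ∃ i < p, i ≠ a ∧ i ≠ b := by
    by_cases e0 : (0 : ℕ) ≠ a ∧ (0 : ℕ) ≠ b
    · exact ⟨0, by omega, e0.1, e0.2⟩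
    · by_cases e1 : (1 : ℕ) ≠ a ∧ (1 : ℕ) ≠ b
      · exact ⟨1, by omega, e1.1, e1.2⟩
      · exact ⟨2, by omega, by omega, by omega⟩
  obtain ⟨j, hj, hja, hjb, hji⟩ : ∃ j < p, j ≠ a ∧ j ≠ b ∧ j ≠ i := by
    by_cases e0 : (0 : ℕ) ≠ a ∧ (0 : ℕ) ≠ b ∧ 0 ≠ i
    · exact ⟨0, by omega, e0.1, e0.2.1, e0.2.2⟩
    · by_cases e1 : (1 : ℕ) ≠ a ∧ (1 : ℕ) ≠ b ∧ 1 ≠ i
      · exact ⟨1, by omega, e1.1, e1.2.1, e1.2.2⟩
      · by_cases e2 : (2 : ℕ) ≠ a ∧ (2 : ℕ) ≠ b ∧ 2 ≠ i
        · exact ⟨2, by omega, e2.1, e2.2.1, e2.2.2⟩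
        · exact ⟨3, by omega, by omega, by omega, by omega⟩
  obtain ⟨z, hz, hza, hzb, hzi, hzj⟩ : ∃ z < p, z ≠ a ∧ z ≠ b ∧ z ≠ i ∧ z ≠ j := by
    by_cases e0 : (0 : ℕ) ≠ a ∧ (0 : ℕ) ≠ b ∧ 0 ≠ i ∧ 0 ≠ j
    · exact ⟨0, by omega, e0.1, e0.2.1, e0.2.2.1, e0.2.2.2⟩
    · by_cases e1 : (1 : ℕ) ≠ a ∧ (1 : ℕ) ≠ b ∧ 1 ≠ i ∧ 1 ≠ j
      · exact ⟨1, by omega, e1.1, e1.2.1, e1.2.2.1, e1.2.2.2⟩
      · by_cases e2 : (2 : ℕ) ≠ a ∧ (2 : ℕ) ≠ b ∧ 2 ≠ i ∧ 2 ≠ j
        · exact ⟨2, by omega, e2.1, e2.2.1, e2.2.2.1, e2.2.2.2⟩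
        · by_cases e3 : (3 : ℕ) ≠ a ∧ (3 : ℕ) ≠ b ∧ 3 ≠ i ∧ 3 ≠ j
          · exact ⟨3, by omega, e3.1, e3.2.1, e3.2.2.1, e3.2.2.2⟩
          · exact ⟨4, by omega, by omega, by omega, by omega, by omega⟩
  have hrm := A.r_mem hM hg h0 hk hm hkm hT hi hj (Ne.symm hji)
  have hrl := A.r_lev hM hg h0 hk hm hkm hT hi hj
  have hri := fun n (hn : n < p) => A.r_inn hM hg h0 hk hm hkm hT hi hj (Ne.symm hji) hn
  have ht : (inner ℝ (ν k + ν m - g) h : ℝ) ≤ 0 := by
    by_contra hc
    push Not at hc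
    have h1 := hr i hi j hj
    rw [hT' i hi, hT' j hj, if_neg (by rintro (h | h) <;> contradiction), if_neg (by rintro (h | h) <;> contradiction)] at h1
    have h2 := C.add_root hh hrm (by rw [h1]; linarith) (by rw [hrl]; linarith)
    refine A.not_three h2 (by rw [map_add, hrl]; linarith) ha hb hi hz hab (Ne.symm hia) (Ne.symm hib) ?_ ?_ ?_ ?_
    · rw [inner_add_right, hT' a ha, hri a ha, if_pos (Or.inl rfl), if_neg (by rintro (h | h) <;> omega)]
      linarith
    · rw [inner_add_right, hT' b hb, hri b hb, if_pos (Or.inr rfl), if_neg (by rintro (h | h) <;> omega)]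
      linarith
    · rw [inner_add_right, hT' i hi, hri i hi, if_neg (by rintro (h | h) <;> omega), if_pos (Or.inl rfl)]
      linarith
    · rw [inner_add_right, hT' z hz, hri z hz, if_neg (by rintro (h | h) <;> omega),
        if_neg (by rintro (h | h) <;> omega)]
      ring
  -- `h` is the root with the indices `a`, `b`
  have h1 := hr a ha b hb
  rw [hT' a ha, hT' b hb, if_pos (Or.inl rfl), if_pos (Or.inr rfl)] at h1
  have h2 : (inner ℝ (ν a + ν b - (ν k + ν m - g)) (ν a + ν b - (ν k + ν m - g)) : ℝ) = l := by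
    rw [inner_sub_left, inner_add_left, A.r_inn hM hg h0 hk hm hkm hT ha hb hab ha,
      A.r_inn hM hg h0 hk hm hkm hT ha hb hab hb, A.y_g hM hg h0 hk hm hkm hT ha hb, if_pos (Or.inl rfl),
      if_pos (Or.inr rfl), hlen]
    ring
  have h3 : (inner ℝ (h - (ν a + ν b - (ν k + ν m - g))) (h - (ν a + ν b - (ν k + ν m - g))) : ℝ) =
      2 * inner ℝ (ν k + ν m - g) h := by
    generalize ν a + ν b - (ν k + ν m - g) = r at h1 h2 ⊢
    rw [inner_sub_left, inner_sub_right, inner_sub_right, real_inner_comm h r, h1, h2, hlen']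
    ring
  have h4 := real_inner_self_nonneg (x := h - (ν a + ν b - (ν k + ν m - g)))
  rw [h3] at h4
  linarith

/-- `y` is orthogonal to the roots of nonzero type. -/
theorem EB.y_orth {h : E} (hh : h ∈ Φ) (hn : Nc p ν h) : (inner ℝ (ν k + ν m - g) h : ℝ) = 0 := by
  have C := A.ep
  have hp := C.five
  have hl := A.lpos
  have hlen := A.g_len hM hg h0 hk hm hkm hT
  have hdiff : ∀ i < p, ∀ j < p, (inner ℝ (ν k + ν m - g) (ν i - ν j) : ℝ) = 0 := by
    intro i hi j hj
    rw [inner_sub_right, real_inner_comm (ν i), real_inner_comm (ν j), A.y_inn hM hg h0 hk hm hkm hT hi,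
      A.y_inn hM hg h0 hk hm hkm hT hj, sub_self]
  -- positive level
  have hpos : ∀ h ∈ Φ, 0 < ℓ h → Nc p ν h → (inner ℝ (ν k + ν m - g) h : ℝ) = 0 := by
    intro h hh hh0 hn
    rcases A.pt h hh hh0 with hT' | ⟨a, ha, hT'⟩ | ⟨a, ha, b, hb, hab, hT'⟩ | ⟨a, ha, hT'⟩
    · exfalso
      obtain ⟨i, hi, j, hj, hij⟩ := hn
      exact hij (hT' i hi j hj)
    · -- type `e_a`
      obtain ⟨i, hi, hia⟩ : ∃ i < p, i ≠ a := by
        by_cases e0 : (0 : ℕ) ≠ a
        · exact ⟨0, by omega, e0⟩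
        · exact ⟨1, by omega, by omega⟩
      obtain ⟨j, hj, hja, hji⟩ : ∃ j < p, j ≠ a ∧ j ≠ i := by
        by_cases e0 : (0 : ℕ) ≠ a ∧ (0 : ℕ) ≠ i
        · exact ⟨0, by omega, e0.1, e0.2⟩
        · by_cases e1 : (1 : ℕ) ≠ a ∧ (1 : ℕ) ≠ i
          · exact ⟨1, by omega, e1.1, e1.2⟩
          · exact ⟨2, by omega, by omega, by omega⟩
      obtain ⟨z, hz, hza, hzi, hzj⟩ : ∃ z < p, z ≠ a ∧ z ≠ i ∧ z ≠ j := by
        by_cases e0 : (0 : ℕ) ≠ a ∧ (0 : ℕ) ≠ i ∧ 0 ≠ j
        · exact ⟨0, by omega, e0.1, e0.2.1, e0.2.2⟩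
        · by_cases e1 : (1 : ℕ) ≠ a ∧ (1 : ℕ) ≠ i ∧ 1 ≠ j
          · exact ⟨1, by omega, e1.1, e1.2.1, e1.2.2⟩
          · by_cases e2 : (2 : ℕ) ≠ a ∧ (2 : ℕ) ≠ i ∧ 2 ≠ j
            · exact ⟨2, by omega, e2.1, e2.2.1, e2.2.2⟩
            · exact ⟨3, by omega, by omega, by omega, by omega⟩
      have hrm := A.r_mem hM hg h0 hk hm hkm hT hi hj (Ne.symm hji)
      have hrl := A.r_lev hM hg h0 hk hm hkm hT hi hj
      have hri := fun n (hn : n < p) => A.r_inn hM hg h0 hk hm hkm hT hi hj (Ne.symm hji) hn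
      have h1 : (inner ℝ h (ν i + ν j - (ν k + ν m - g)) : ℝ) = -inner ℝ (ν k + ν m - g) h := by
        rw [inner_sub_right, inner_add_right, real_inner_comm (ν i) h, real_inner_comm (ν j) h,
          real_inner_comm (ν k + ν m - g) h, hT' i hi, hT' j hj, if_neg hia, if_neg hja]
        ring
      rcases lt_trichotomy (inner ℝ (ν k + ν m - g) h : ℝ) 0 with ht | ht | ht
      · exfalso
        have h2 : ν i + ν j - (ν k + ν m - g) - h ∈ Φ := by
          refine C.rs.sub_mem hrm hh (by rw [real_inner_comm, h1]; linarith) ?_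
          intro h3
          have h4 := hri a ha
          rw [h3, hT' a ha, if_pos rfl, if_neg (by rintro (h | h) <;> omega)] at h4
          linarith
        have h5 : ∀ n < p, (inner ℝ (ν n) (ν i + ν j - (ν k + ν m - g) - h) : ℝ) =
            (if n = i ∨ n = j then l / 2 else 0) - (if n = a then l / 2 else 0) := by
          intro n hn
          rw [inner_sub_right, hri n hn, hT' n hn]
        rcases lt_trichotomy (ℓ (ν i + ν j - (ν k + ν m - g) - h)) 0 with h6 | h6 | h6
        · have h7 := C.top_nonneg (C.neg h2) (by rw [map_neg]; linarith) hi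
          rw [inner_neg_right, h5 i hi, if_pos (Or.inl rfl), if_neg hia] at h7
          linarith
        · rcases A.zt _ h2 h6 with ⟨u, hu, v, hv, huv, h7⟩ | h7
          · have h8 := h5 i hi
            have h9 := h5 j hj
            rw [h7, A.inn i hi u hu v hv, if_pos (Or.inl rfl), if_neg hia] at h8
            rw [h7, A.inn j hj u hu v hv, if_pos (Or.inr rfl), if_neg hja] at h9
            have e1 : i = u := by
              by_contra hc
              rw [if_neg hc] at h8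
              split_ifs at h8 <;> linarith
            have e2 : j = u := by
              by_contra hc
              rw [if_neg hc] at h9
              split_ifs at h9 <;> linarith
            exact hji (e2.trans e1.symm)
          · have h8 := h5 i hi
            rw [h7 i hi, if_pos (Or.inl rfl), if_neg hia] at h8
            linarith
        · have h7 := C.top_nonneg h2 h6 ha
          rw [h5 a ha, if_neg (by rintro (h | h) <;> omega), if_pos rfl] at h7
          linarith
      · exact ht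
      · exfalso
        have h2 := C.add_root hh hrm (by rw [h1]; linarith) (by rw [hrl]; linarith)
        refine A.not_three h2 (by rw [map_add, hrl]; linarith) ha hi hj hz (Ne.symm hia) (Ne.symm hja) (Ne.symm hji)
          ?_ ?_ ?_ ?_
        · rw [inner_add_right, hT' a ha, hri a ha, if_pos rfl, if_neg (by rintro (h | h) <;> omega)]
          linarith
        · rw [inner_add_right, hT' i hi, hri i hi, if_neg hia, if_pos (Or.inl rfl)]
          linarith
        · rw [inner_add_right, hT' j hj, hri j hj, if_neg hja, if_pos (Or.inr rfl)]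
          linarith
        · rw [inner_add_right, hT' z hz, hri z hz, if_neg hza, if_neg (by rintro (h | h) <;> omega)]
          ring
    · exact A.y_T2 hM hg h0 hk hm hkm hT hh hh0 ha hb hab hT'
    · -- type `2 e_a`
      obtain ⟨b, hb, hba⟩ : ∃ b < p, b ≠ a := by
        by_cases e0 : (0 : ℕ) ≠ a
        · exact ⟨0, by omega, e0⟩
        · exact ⟨1, by omega, by omega⟩
      have h1 := A.shift hh hh0.ne' ha hb (Ne.symm hba) (by rw [hT' a ha, hT' b hb, if_pos rfl, if_neg hba]; linarith)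
      have h2 := A.y_T2 hM hg h0 hk hm hkm hT h1.1 (by rw [h1.2]; exact hh0) ha hb (Ne.symm hba) (by
        intro i hi
        rw [inner_sub_right, hT' i hi, A.inn i hi a ha b hb]
        by_cases e1 : i = a
        · rw [if_pos e1, if_pos e1, if_neg (by omega), if_pos (Or.inl e1)]
          ring
        · by_cases e2 : i = b
          · rw [if_neg e1, if_neg e1, if_pos e2, if_pos (Or.inr e2)]
            ring
          · rw [if_neg e1, if_neg e1, if_neg e2, if_neg (by rintro (h | h) <;> contradiction)]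
            ring)
      rw [inner_sub_right, hdiff a ha b hb, sub_zero] at h2
      exact h2
  rcases lt_trichotomy (ℓ h) 0 with h1 | h1 | h1
  · have h2 := hpos (-h) (C.neg hh) (by rw [map_neg]; linarith) (by
      obtain ⟨i, hi, j, hj, hij⟩ := hn
      refine ⟨i, hi, j, hj, ?_⟩
      rw [inner_neg_right, inner_neg_right]
      exact fun h => hij (neg_injective h))
    rw [inner_neg_right] at h2
    linarith
  · rcases A.zt h hh h1 with ⟨i, hi, j, hj, hij, rfl⟩ | h2
    · exact hdiff i hi j hj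
    · exfalso
      obtain ⟨i, hi, j, hj, hij⟩ := hn
      exact hij (by rw [h2 i hi, h2 j hj])
  · exact hpos h hh h1 hn

/-- **The sums are roots.** -/
theorem EB.sum_of_T2 : ∀ i < p, ∀ j < p, i ≠ j → ν i + ν j ∈ Φ := by
  have C := A.ep
  have h1 := A.orth94 (y := ν k + ν m - g) fun h hh hn => A.y_orth hM hg h0 hk hm hkm hT hh hn
  have h2 : ν k + ν m - g = 0 := by
    refine zero_of_orth ?_ h1
    exact Submodule.sub_mem _ (Submodule.add_mem _ (sat_span C.sat (C.mem hk).1) (sat_span C.sat (C.mem hm).1))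
      (Submodule.subset_span hg)
  intro i hi j hj hij
  have h3 := A.r_mem hM hg h0 hk hm hkm hT hi hj hij
  rwa [h2, sub_zero] at h3

end two

/-! ### All roots of positive level and nonzero type have a type `e_k` -/

section one

variable {M : ℝ} (hM : ∀ i < p, ∀ j < p, inner ℝ (ν i) (ν j) = if i = j then M + l / 2 else M)
  (hno : ∀ g ∈ Φ, 0 < ℓ g → Nc p ν g → ∃ k < p, ∀ i < p, inner ℝ (ν i) g = if i = k then l / 2 else (0 : ℝ))
include hM hno

/-- two nonzero products are impossible -/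
theorem EB.not_two {g : E} (hg : g ∈ Φ) (h0 : 0 < ℓ g) {i j k : ℕ} (hi : i < p) (hj : j < p) (hk : k < p)
    (hij : i ≠ j) (h1 : (inner ℝ (ν i) g : ℝ) ≠ 0) (h2 : (inner ℝ (ν j) g : ℝ) ≠ 0) (h3 : (inner ℝ (ν k) g : ℝ) = 0) :
    False := by
  obtain ⟨a, ha, h⟩ := hno g hg h0 ⟨i, hi, k, hk, by rw [h3]; exact h1⟩
  rw [h i hi] at h1
  rw [h j hj] at h2
  have e1 : i = a := by
    by_contra hc
    exact h1 (if_neg hc)
  have e2 : j = a := by
    by_contra hc
    exact h2 (if_neg hc)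
  exact hij (e1.trans e2.symm)

/-- the roots of positive level of type `e_0` have norm `l` -/
theorem EB.one_len {ρ : E} (hρ : ρ ∈ Φ) (h0 : 0 < ℓ ρ) (hT : ∀ i < p, inner ℝ (ν i) ρ = if i = 0 then l / 2 else (0 : ℝ)) :
    (inner ℝ ρ ρ : ℝ) = l := by
  have C := A.ep
  have hp := C.five
  have hl := A.lpos
  rcases A.len hρ (i := 0) (j := 1) (by omega) (by omega) (by omega) (by
    rw [hT 0 (by omega), hT 1 (by omega), if_pos rfl, if_neg (by omega)]
    ring) with h | h
  · exact h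
  · exfalso
    have h1 := A.shift hρ h0.ne' (i := 0) (j := 1) (by omega) (by omega) (by omega) (by
      rw [hT 0 (by omega), hT 1 (by omega), if_pos rfl, if_neg (by omega)]
      linarith)
    have ha := A.mem 0 (by omega) 1 (by omega) (by omega)
    have e0 : (inner ℝ (ν 0 - ν 1) ρ : ℝ) = l / 2 := by
      rw [inner_sub_left, hT 0 (by omega), hT 1 (by omega), if_pos rfl, if_neg (by omega)]
      ring
    have nd := A.norm 0 (by omega) 1 (by omega) (by omega)
    have e1 : (inner ℝ (ρ - (ν 0 - ν 1)) (ρ - (ν 0 - ν 1)) : ℝ) = l / 2 := by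
      generalize ν 0 - ν 1 = d at nd e0 ⊢
      rw [inner_sub_left, inner_sub_right, inner_sub_right, nd, e0, real_inner_comm d ρ, e0, h]
      ring
    have e2 : (inner ℝ (ν 0 - ν 1) (ρ - (ν 0 - ν 1)) : ℝ) = -(l / 2) := by
      generalize ν 0 - ν 1 = d at nd e0 ⊢
      rw [inner_sub_right, nd, e0]
      ring
    have e3 : co (ρ - (ν 0 - ν 1)) (ν 0 - ν 1) = -2 := by
      unfold co
      rw [e1, e2]
      field_simp
    have h2 := C.refl h1.1 ha
    rw [e3] at h2
    have h3 : ν 0 - ν 1 - (-2 : ℝ) • (ρ - (ν 0 - ν 1)) = ρ + (ρ - (ν 0 - ν 1)) := by module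
    rw [h3] at h2
    refine A.not_two hM hno h2 (by rw [map_add, h1.2]; linarith) (i := 0) (j := 1) (k := 2) (by omega) (by omega)
      (by omega) (by omega) ?_ ?_ ?_
    · rw [inner_add_right, inner_sub_right, A.inn 0 (by omega) 0 (by omega) 1 (by omega), hT 0 (by omega)]
      norm_num
      linarith
    · rw [inner_add_right, inner_sub_right, A.inn 1 (by omega) 0 (by omega) 1 (by omega), hT 1 (by omega)]
      norm_num
      linarith
    · rw [inner_add_right, inner_sub_right, A.inn 2 (by omega) 0 (by omega) 1 (by omega), hT 2 (by omega)]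
      norm_num

/-- two different roots of type `e_0` -/
theorem EB.one_inn {ρ σ : E} (hρ : ρ ∈ Φ) (h0 : 0 < ℓ ρ)
    (hT : ∀ i < p, inner ℝ (ν i) ρ = if i = 0 then l / 2 else (0 : ℝ)) (hσ : σ ∈ Φ) (h0' : 0 < ℓ σ)
    (hT' : ∀ i < p, inner ℝ (ν i) σ = if i = 0 then l / 2 else (0 : ℝ)) (hne : ρ ≠ σ) : (inner ℝ ρ σ : ℝ) = l / 2 := by
  have C := A.ep
  have hp := C.five
  have hl := A.lpos
  have n1 := A.one_len hM hno hρ h0 hT
  have n2 := A.one_len hM hno hσ h0' hT'
  have h1 := A.shift hσ h0'.ne' (i := 0) (j := 1) (by omega) (by omega) (by omega) (by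
      rw [hT' 0 (by omega), hT' 1 (by omega), if_pos rfl, if_neg (by omega)]
      linarith)
  have e1 : (inner ℝ ρ (σ - (ν 0 - ν 1)) : ℝ) = inner ℝ ρ σ - l / 2 := by
    rw [inner_sub_right, inner_sub_right, real_inner_comm (ν 0) ρ, real_inner_comm (ν 1) ρ, hT 0 (by omega),
      hT 1 (by omega), if_pos rfl, if_neg (by omega)]
    ring
  have h2 : l / 2 ≤ inner ℝ ρ σ := by
    by_contra hc
    push Not at hc
    have h3 := C.add_root hρ h1.1 (by rw [e1]; linarith) (by rw [h1.2]; linarith)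
    refine A.not_two hM hno h3 (by rw [map_add, h1.2]; linarith) (i := 0) (j := 1) (k := 2) (by omega) (by omega)
      (by omega) (by omega) ?_ ?_ ?_
    · rw [inner_add_right, inner_sub_right, A.inn 0 (by omega) 0 (by omega) 1 (by omega), hT 0 (by omega),
        hT' 0 (by omega)]
      norm_num
      linarith
    · rw [inner_add_right, inner_sub_right, A.inn 1 (by omega) 0 (by omega) 1 (by omega), hT 1 (by omega),
        hT' 1 (by omega)]
      norm_num
      linarith
    · rw [inner_add_right, inner_sub_right, A.inn 2 (by omega) 0 (by omega) 1 (by omega), hT 2 (by omega),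
        hT' 2 (by omega)]
      norm_num
  obtain ⟨k, hk⟩ := C.rs.int σ hσ ρ hρ
  have h4 := C.le2 σ hσ ρ hρ
  have h5 := inn C.rs hσ ρ
  rw [hk, n2] at h5
  rw [hk] at h4
  have h6 : 0 < k := by
    by_contra hc
    push Not at hc
    have : (k : ℝ) ≤ 0 := by exact_mod_cast hc
    nlinarith
  have h7 : k ≤ 2 := by exact_mod_cast h4
  have h8 : k = 1 ∨ k = 2 := by omega
  rcases h8 with rfl | rfl
  · push_cast at h5
    linarith
  · exfalso
    apply hne
    push_cast at h5
    have h9 : (inner ℝ (ρ - σ) (ρ - σ) : ℝ) = 0 := by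
      rw [inner_sub_left, inner_sub_right, inner_sub_right, real_inner_comm ρ σ, n1, n2, h5]
      ring
    exact sub_eq_zero.1 (inner_self_eq_zero.1 h9)

/-- The products with `ν 1` are multiples of `l / 2`. -/
theorem EB.one_int {g : E} (hg : g ∈ Φ) : ∃ n : ℤ, inner ℝ (ν 1) g = l / 2 * (n : ℝ) := by
  have C := A.ep
  have hp := C.five
  have hl := A.lpos
  -- nonzero type
  have hnc : ∀ g ∈ Φ, Nc p ν g → (∃ s : ℝ, (s = 1 ∨ s = -1) ∧ ∃ k < p, ∀ i < p,
      inner ℝ (ν i) g = if i = k then s * (l / 2) else (0 : ℝ)) ∨ (∃ u < p, ∃ v < p, u ≠ v ∧ g = ν u - ν v) := by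
    intro g hg hn
    rcases lt_trichotomy (ℓ g) 0 with h1 | h1 | h1
    · left
      obtain ⟨k, hk, h2⟩ := hno (-g) (C.neg hg) (by rw [map_neg]; linarith) (by
        obtain ⟨i, hi, j, hj, hij⟩ := hn
        refine ⟨i, hi, j, hj, ?_⟩
        rw [inner_neg_right, inner_neg_right]
        exact fun h => hij (neg_injective h))
      refine ⟨-1, Or.inr rfl, k, hk, fun i hi => ?_⟩
      have h3 := h2 i hi
      rw [inner_neg_right] at h3
      split_ifs at h3 ⊢
      · linarith
      · linarith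
    · rcases A.zt g hg h1 with h2 | h2
      · exact Or.inr h2
      · exfalso
        obtain ⟨i, hi, j, hj, hij⟩ := hn
        exact hij (by rw [h2 i hi, h2 j hj])
    · left
      obtain ⟨k, hk, h2⟩ := hno g hg h1 hn
      exact ⟨1, Or.inl rfl, k, hk, fun i hi => by rw [h2 i hi]; simp⟩
  by_cases hn : Nc p ν g
  · rcases hnc g hg hn with ⟨s, hs, k, hk, h⟩ | ⟨u, hu, v, hv, huv, rfl⟩
    · rw [h 1 (by omega)]
      split_ifs
      · rcases hs with rfl | rfl
        · exact ⟨1, by push_cast; ring⟩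
        · exact ⟨-1, by push_cast; ring⟩
      · exact ⟨0, by push_cast; ring⟩
    · rw [A.inn 1 (by omega) u hu v hv]
      refine ⟨(if 1 = u then 1 else 0) - (if 1 = v then 1 else 0), ?_⟩
      push_cast
      rfl
  · -- type zero
    refine ⟨0, ?_⟩
    obtain ⟨ρ, hρ, hρn, hgρ⟩ := A.near_nc g hg
    unfold Nc at hn
    push Not at hn
    have hco : co g ρ ≠ 0 := by
      intro h
      apply hgρ
      rw [real_inner_comm]
      exact (inn_eq_zero C.rs hg ρ).2 h
    obtain ⟨s, hs, k, hk, h⟩ : ∃ s : ℝ, (s = 1 ∨ s = -1) ∧ ∃ k < p, ∀ i < p,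
        inner ℝ (ν i) ρ = if i = k then s * (l / 2) else (0 : ℝ) := by
      rcases hnc ρ hρ hρn with h | ⟨u, hu, v, hv, huv, rfl⟩
      · exact h
      · exfalso
        apply hgρ
        rw [inner_sub_right, real_inner_comm (ν u), real_inner_comm (ν v), hn u hu v hv, sub_self]
    have hval : ∀ i < p, (inner ℝ (ν i) (ρ - co g ρ • g) : ℝ) =
        (if i = k then s * (l / 2) else 0) - co g ρ * inner ℝ (ν 1) g := by
      intro i hi
      rw [inner_sub_right, inner_smul_right, h i hi, hn i hi 1 (by omega)]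
    -- three indices different from `k`
    obtain ⟨a, ha, hak⟩ : ∃ a < p, a ≠ k := by
      by_cases e0 : (0 : ℕ) ≠ k
      · exact ⟨0, by omega, e0⟩
      · exact ⟨1, by omega, by omega⟩
    obtain ⟨b, hb, hbk, hba⟩ : ∃ b < p, b ≠ k ∧ b ≠ a := by
      by_cases e0 : (0 : ℕ) ≠ k ∧ (0 : ℕ) ≠ a
      · exact ⟨0, by omega, e0.1, e0.2⟩
      · by_cases e1 : (1 : ℕ) ≠ k ∧ (1 : ℕ) ≠ a
        · exact ⟨1, by omega, e1.1, e1.2⟩
        · exact ⟨2, by omega, by omega, by omega⟩
    obtain ⟨d, hd, hdk, hda, hdb⟩ : ∃ d < p, d ≠ k ∧ d ≠ a ∧ d ≠ b := by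
      by_cases e0 : (0 : ℕ) ≠ k ∧ (0 : ℕ) ≠ a ∧ 0 ≠ b
      · exact ⟨0, by omega, e0.1, e0.2.1, e0.2.2⟩
      · by_cases e1 : (1 : ℕ) ≠ k ∧ (1 : ℕ) ≠ a ∧ 1 ≠ b
        · exact ⟨1, by omega, e1.1, e1.2.1, e1.2.2⟩
        · by_cases e2 : (2 : ℕ) ≠ k ∧ (2 : ℕ) ≠ a ∧ 2 ≠ b
          · exact ⟨2, by omega, e2.1, e2.2.1, e2.2.2⟩
          · exact ⟨3, by omega, by omega, by omega, by omega⟩
    have hne : Nc p ν (ρ - co g ρ • g) := by
      refine ⟨k, hk, a, ha, ?_⟩
      rw [hval k hk, hval a ha, if_pos rfl, if_neg hak]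
      intro h1
      have h2 : s * (l / 2) = 0 := by linarith
      rcases hs with rfl | rfl <;> linarith
    have key : co g ρ * inner ℝ (ν 1) g = 0 := by
      rcases hnc _ (C.refl hg hρ) hne with ⟨s', hs', k', hk', h'⟩ | ⟨u, hu, v, hv, huv, h'⟩
      · -- two of the indices `a`, `b` are different from `k'` or one is
        by_cases e1 : a = k'
        · have h1 := h' b hb
          rw [hval b hb, if_neg hbk, if_neg (by omega)] at h1
          linarith
        · have h1 := h' a ha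
          rw [hval a ha, if_neg hak, if_neg e1] at h1
          linarith
      · have va := hval a ha
        have vb := hval b hb
        have vd := hval d hd
        rw [h', A.inn a ha u hu v hv, if_neg hak] at va
        rw [h', A.inn b hb u hu v hv, if_neg hbk] at vb
        rw [h', A.inn d hd u hu v hv, if_neg hdk] at vd
        by_cases e1 : a ≠ u ∧ a ≠ v
        · rw [if_neg e1.1, if_neg e1.2] at va
          linarith
        · by_cases e2 : b ≠ u ∧ b ≠ v
          · rw [if_neg e2.1, if_neg e2.2] at vb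
            linarith
          · rw [if_neg (by omega), if_neg (by omega)] at vd
            linarith
    have h1 := (mul_eq_zero.1 key).resolve_left hco
    rw [h1]
    simp

open Classical in
/-- **This is impossible.** -/
theorem EB.one_false : False := by
  have C := A.ep
  have hp := C.five
  have hl := A.lpos
  -- a root of type `e_0`
  obtain ⟨ρ, hρ, hρ0, hρT⟩ : ∃ ρ ∈ Φ, 0 < ℓ ρ ∧ ∀ i < p, inner ℝ (ν i) ρ = if i = 0 then l / 2 else (0 : ℝ) := by
    obtain ⟨b, hb, hb0, hab⟩ := C.exists_lev (A.mem 0 (by omega) 1 (by omega) (by omega))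
      (A.lev_sub (by omega) (by omega))
    obtain ⟨k, hk, hT⟩ := hno b hb hb0 ⟨0, by omega, 1, by omega, fun h => hab (by
      rw [inner_sub_left, h, sub_self])⟩
    by_cases hk0 : k = 0
    · subst hk0
      exact ⟨b, hb, hb0, hT⟩
    · have h1 := A.shift hb hb0.ne' (i := k) (j := 0) hk (by omega) hk0 (by
        rw [hT k hk, hT 0 (by omega), if_pos rfl, if_neg (Ne.symm hk0)]
        linarith)
      refine ⟨_, h1.1, by rw [h1.2]; exact hb0, fun i hi => ?_⟩
      rw [inner_sub_right, hT i hi, A.inn i hi k hk 0 (by omega)]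
      by_cases e1 : i = k
      · rw [if_pos e1, if_pos e1, if_neg (by omega), if_neg (by omega)]
        ring
      · by_cases e2 : i = 0
        · rw [if_neg e1, if_neg e1, if_pos e2, if_pos e2]
          ring
        · rw [if_neg e1, if_neg e1, if_neg e2, if_neg e2]
          ring
  -- the set of these roots
  obtain ⟨R, hR⟩ : ∃ R : Finset E, ∀ g, g ∈ R ↔ g ∈ Φ ∧ 0 < ℓ g ∧
      ∀ i < p, inner ℝ (ν i) g = if i = 0 then l / 2 else (0 : ℝ) :=
    ⟨Φ.filter fun g => 0 < ℓ g ∧ ∀ i < p, inner ℝ (ν i) g = if i = 0 then l / 2 else (0 : ℝ), fun g => by simp⟩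
  obtain ⟨w, hw⟩ : ∃ w, w = ∑ k ∈ Finset.range p, ν k + ∑ σ ∈ R, (ν 0 - σ) := ⟨_, rfl⟩
  -- `w` is orthogonal to the roots
  have hsum : ∀ g : E, ∀ k < p, (∀ i < p, inner ℝ (ν i) g = if i = k then l / 2 else (0 : ℝ)) →
      ∑ i ∈ Finset.range p, (inner ℝ (ν i) g : ℝ) = l / 2 := by
    intro g k hk hT
    rw [Finset.sum_congr rfl fun i hi => hT i (Finset.mem_range.1 hi), Finset.sum_ite_eq', if_pos (Finset.mem_range.2 hk)]
  have hpos : ∀ g ∈ Φ, 0 < ℓ g → Nc p ν g → (inner ℝ w g : ℝ) = 0 := by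
    intro g hg hg0 hn
    obtain ⟨k, hk, hT⟩ := hno g hg hg0 hn
    -- the root of type `e_0`
    obtain ⟨σ, hσR, hσ⟩ : ∃ σ ∈ R, g = σ + ν k - ν 0 := by
      by_cases hk0 : k = 0
      · subst hk0
        exact ⟨g, (hR g).2 ⟨hg, hg0, hT⟩, by abel⟩
      · have h1 := A.shift hg hg0.ne' (i := k) (j := 0) hk (by omega) hk0 (by
          rw [hT k hk, hT 0 (by omega), if_pos rfl, if_neg (Ne.symm hk0)]
          linarith)
        refine ⟨g - (ν k - ν 0), (hR _).2 ⟨h1.1, by rw [h1.2]; exact hg0, fun i hi => ?_⟩, by abel⟩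
        rw [inner_sub_right, hT i hi, A.inn i hi k hk 0 (by omega)]
        by_cases e1 : i = k
        · rw [if_pos e1, if_pos e1, if_neg (by omega), if_neg (by omega)]
          ring
        · by_cases e2 : i = 0
          · rw [if_neg e1, if_neg e1, if_pos e2, if_pos e2]
            ring
          · rw [if_neg e1, if_neg e1, if_neg e2, if_neg e2]
            ring
    obtain ⟨hσΦ, hσ0, hσT⟩ := (hR σ).1 hσR
    have h2 : ∀ τ ∈ R, (inner ℝ (ν 0 - τ) g : ℝ) = if τ = σ then -(l / 2) else 0 := by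
      intro τ hτ
      obtain ⟨hτΦ, hτ0, hτT⟩ := (hR τ).1 hτ
      have h3 : (inner ℝ τ g : ℝ) = inner ℝ τ σ + (if k = 0 then l / 2 else 0) - l / 2 := by
        rw [hσ, inner_sub_right, inner_add_right, real_inner_comm (ν k) τ, real_inner_comm (ν 0) τ, hτT k hk,
          hτT 0 (by omega), if_pos rfl]
      rw [inner_sub_left, hT 0 (by omega), h3]
      by_cases h4 : τ = σ
      · rw [if_pos h4, h4, A.one_len hM hno hσΦ hσ0 hσT]
        by_cases hk0 : k = 0
        · rw [if_pos hk0.symm, if_pos hk0]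
          ring
        · rw [if_neg (Ne.symm hk0), if_neg hk0]
          ring
      · rw [if_neg h4, A.one_inn hM hno hτΦ hτ0 hτT hσΦ hσ0 hσT h4]
        by_cases hk0 : k = 0
        · rw [if_pos hk0.symm, if_pos hk0]
          ring
        · rw [if_neg (Ne.symm hk0), if_neg hk0]
          ring
    rw [hw, inner_add_left, sum_inner, sum_inner, hsum g k hk hT, Finset.sum_congr rfl h2, Finset.sum_ite_eq',
      if_pos hσR]
    ring
  have horth : ∀ g ∈ Φ, Nc p ν g → (inner ℝ w g : ℝ) = 0 := by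
    intro g hg hn
    rcases lt_trichotomy (ℓ g) 0 with h1 | h1 | h1
    · have h2 := hpos (-g) (C.neg hg) (by rw [map_neg]; linarith) (by
        obtain ⟨i, hi, j, hj, hij⟩ := hn
        refine ⟨i, hi, j, hj, ?_⟩
        rw [inner_neg_right, inner_neg_right]
        exact fun h => hij (neg_injective h))
      rw [inner_neg_right] at h2
      linarith
    · rcases A.zt g hg h1 with ⟨u, hu, v, hv, huv, rfl⟩ | h2
      · rw [hw, inner_add_left, sum_inner, sum_inner]
        have h3 : ∑ k ∈ Finset.range p, (inner ℝ (ν k) (ν u - ν v) : ℝ) = 0 := by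
          rw [Finset.sum_congr rfl fun k hk => A.inn k (Finset.mem_range.1 hk) u hu v hv, ← Finset.mul_sum,
            Finset.sum_sub_distrib, Finset.sum_ite_eq', Finset.sum_ite_eq', if_pos (Finset.mem_range.2 hu),
            if_pos (Finset.mem_range.2 hv), sub_self, mul_zero]
        rw [h3, zero_add]
        refine Finset.sum_eq_zero fun τ hτ => ?_
        obtain ⟨hτΦ, hτ0, hτT⟩ := (hR τ).1 hτ
        rw [inner_sub_left, inner_sub_right τ, real_inner_comm (ν u) τ, real_inner_comm (ν v) τ, hτT u hu, hτT v hv,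
          A.inn 0 (by omega) u hu v hv]
        by_cases e1 : u = 0
        · by_cases e2 : v = 0
          · exact absurd (e1.trans e2.symm) huv
          · rw [if_pos e1.symm, if_neg (Ne.symm e2), if_pos e1, if_neg e2]
            ring
        · by_cases e2 : v = 0
          · rw [if_neg (Ne.symm e1), if_pos e2.symm, if_neg e1, if_pos e2]
            ring
          · rw [if_neg (Ne.symm e1), if_neg (Ne.symm e2), if_neg e1, if_neg e2]
            ring
      · exfalso
        obtain ⟨i, hi, j, hj, hij⟩ := hn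
        exact hij (by rw [h2 i hi, h2 j hj])
    · exact hpos g hg h1 hn
  have hw0 : w = 0 := by
    refine zero_of_orth ?_ (A.orth94 horth)
    rw [hw]
    refine Submodule.add_mem _ (Submodule.sum_mem _ fun k hk => sat_span C.sat (C.mem (Finset.mem_range.1 hk)).1)
      (Submodule.sum_mem _ fun τ hτ => Submodule.sub_mem _ (sat_span C.sat (C.mem (by omega)).1)
        (Submodule.subset_span ((hR τ).1 hτ).1))
  -- the inner product with `ν 0`
  have h1 : (inner ℝ (ν 0) w : ℝ) = 0 := by rw [hw0, inner_zero_right]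
  rw [hw, inner_add_right, inner_sum, inner_sum] at h1
  have h2 : ∑ k ∈ Finset.range p, (inner ℝ (ν 0) (ν k) : ℝ) = p * M + l / 2 := by
    rw [Finset.sum_congr rfl fun k hk => hM 0 (by omega) k (Finset.mem_range.1 hk)]
    have h3 : ∀ k ∈ Finset.range p, (if 0 = k then M + l / 2 else M) = M + if 0 = k then l / 2 else 0 := by
      intro k _
      split_ifs <;> ring
    rw [Finset.sum_congr rfl h3, Finset.sum_add_distrib, Finset.sum_const, Finset.card_range, Finset.sum_ite_eq,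
      if_pos (Finset.mem_range.2 (by omega)), nsmul_eq_mul]
  have h3 : ∑ τ ∈ R, (inner ℝ (ν 0) (ν 0 - τ) : ℝ) = R.card * M := by
    rw [Finset.sum_congr rfl fun τ hτ => by
      rw [inner_sub_right, hM 0 (by omega) 0 (by omega), ((hR τ).1 hτ).2.2 0 (by omega), if_pos rfl, if_pos rfl,
        add_sub_cancel_right], Finset.sum_const, nsmul_eq_mul]
  rw [h2, h3] at h1
  -- the lattice
  have hcl : ∀ z ∈ AddSubgroup.closure (Φ : Set E), ∃ n : ℤ, inner ℝ (ν 1) z = l / 2 * (n : ℝ) := by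
    intro z hz
    induction hz using AddSubgroup.closure_induction with
    | mem z hz => exact A.one_int hM hno hz
    | zero => exact ⟨0, by rw [inner_zero_right]; simp⟩
    | add z w _ _ h5 h6 =>
      obtain ⟨a, ha⟩ := h5
      obtain ⟨b, hb⟩ := h6
      exact ⟨a + b, by rw [inner_add_right, ha, hb]; push_cast; ring⟩
    | neg z _ h5 =>
      obtain ⟨a, ha⟩ := h5
      exact ⟨-a, by rw [inner_neg_right, ha]; push_cast; ring⟩
  obtain ⟨n, hn⟩ := hcl _ (C.sat.coset (ν 0) (C.mem (by omega)).1 (-ν 0) (C.negX (C.mem (by omega)).1))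
  rw [inner_sub_right, inner_neg_right, hM 1 (by omega) 0 (by omega), if_neg (by omega)] at hn
  have h4 : ((p : ℝ) + R.card) * n = -2 := by
    have h5 : M = l / 4 * n := by linarith
    rw [h5] at h1
    have h6 : l * (((p : ℝ) + R.card) * n + 2) = 0 := by linarith
    rcases mul_eq_zero.1 h6 with h7 | h7
    · exact absurd h7 hl.ne'
    · linarith
  have h5 : ((p : ℤ) + R.card) * n = -2 := by exact_mod_cast h4
  have h6 : n < 0 := by
    by_contra hc
    push Not at hc
    nlinarith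
  nlinarith

end one

/-- **The sums of two top weights are roots.** -/
theorem EB.sum_mem : ∀ i < p, ∀ j < p, i ≠ j → ν i + ν j ∈ Φ := by
  obtain ⟨M, hM⟩ := A.toEA.gram
  have hl := A.lpos
  have hp := A.ep.five
  by_cases h : ∃ g ∈ Φ, 0 < ℓ g ∧ ∃ k < p, ∃ m < p, k ≠ m ∧
      ∀ i < p, inner ℝ (ν i) g = if i = k ∨ i = m then l / 2 else (0 : ℝ)
  · obtain ⟨g, hg, hg0, k, hk, m, hm, hkm, hT⟩ := h
    exact A.sum_of_T2 hM hg hg0 hk hm hkm hT
  · exfalso
    refine A.one_false hM ?_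
    intro g hg hg0 hn
    rcases A.pt g hg hg0 with hT | hT | ⟨k, hk, m, hm, hkm, hT⟩ | ⟨k, hk, hT⟩
    · exfalso
      obtain ⟨i, hi, j, hj, hij⟩ := hn
      exact hij (hT i hi j hj)
    · exact hT
    · exact absurd ⟨g, hg, hg0, k, hk, m, hm, hkm, hT⟩ h
    · exfalso
      obtain ⟨m, hm, hmk⟩ : ∃ m < p, m ≠ k := by
        by_cases e0 : (0 : ℕ) ≠ k
        · exact ⟨0, by omega, e0⟩
        · exact ⟨1, by omega, by omega⟩
      have h1 := A.shift hg hg0.ne' hk hm (Ne.symm hmk) (by rw [hT k hk, hT m hm, if_pos rfl, if_neg hmk]; linarith)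
      refine h ⟨_, h1.1, by rw [h1.2]; exact hg0, k, hk, m, hm, Ne.symm hmk, fun i hi => ?_⟩
      rw [inner_sub_right, hT i hi, A.inn i hi k hk m hm]
      by_cases e1 : i = k
      · rw [if_pos e1, if_pos e1, if_neg (by omega), if_pos (Or.inl e1)]
        ring
      · by_cases e2 : i = m
        · rw [if_neg e1, if_neg e1, if_pos e2, if_pos (Or.inr e2)]
          ring
        · rw [if_neg e1, if_neg e1, if_neg e2, if_neg (by rintro (h | h) <;> contradiction)]
          ring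

end eb

end EP
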