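import Pool.Agent.Helper94.TR.Basic

/-!
Project EP (MP_b8862a_ag): the extreme multiplicity is a prime number `p` and the dimension is at most `p ^ 2 / 2`.
Definitions and basic facts.
-/

set_option linter.unusedSectionVars false
set_option linter.unusedVariables false

namespace EP

open PF PG TR

variable {E : Type*} [NormedAddCommGroup E] [InnerProductSpace ℝ E]

/-- The top level `c` consists of the `p` weights `ν i`, and there are at most `p ^ 2 / 2` weights. -/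
structure Ep (Φ X : Finset E) (ℓ : E →ₗ[ℝ] ℝ) (c : ℝ) (p : ℕ) (ν : ℕ → E) : Prop where
  rs : RS Φ
  sat : Sat Φ X
  le2 : ∀ a ∈ Φ, ∀ b ∈ Φ, co a b ≤ 2
  cpos : 0 < c
  lev : ∀ x ∈ X, ℓ x ≤ c
  top : ∀ x, (x ∈ X ∧ ℓ x = c) ↔ ∃ i < p, x = ν i
  inj : ∀ i < p, ∀ j < p, ν i = ν j → i = j
  five : 5 ≤ p
  small : 2 * X.card ≤ p ^ 2

variable {Φ X : Finset E} {ℓ : E →ₗ[ℝ] ℝ} {c : ℝ} {p : ℕ} {ν : ℕ → E} (C : Ep Φ X ℓ c p ν)
include C

theorem Ep.pos {a : E} (ha : a ∈ Φ) : (0 : ℝ) < inner ℝ a a := C.rs.inner_pos ha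

theorem Ep.neg {a : E} (ha : a ∈ Φ) : -a ∈ Φ := C.rs.neg_mem ha

theorem Ep.refl {a b : E} (ha : a ∈ Φ) (hb : b ∈ Φ) : b - co a b • a ∈ Φ := C.rs.refl a ha b hb

theorem Ep.reflX {a x : E} (ha : a ∈ Φ) (hx : x ∈ X) : x - co a x • a ∈ X := sat_refl C.rs C.sat ha hx

theorem Ep.negX {x : E} (hx : x ∈ X) : -x ∈ X := C.sat.neg x hx

theorem Ep.two_le {a b : E} (ha : a ∈ Φ) (hb : b ∈ Φ) : -2 ≤ co a b := by
  have h1 := C.le2 (-a) (C.neg ha) b hb
  rw [PF.co_neg_left] at h1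
  linarith

/-- The pairing of two roots is one of five numbers. -/
theorem Ep.co_five {a b : E} (ha : a ∈ Φ) (hb : b ∈ Φ) :
    co a b = -2 ∨ co a b = -1 ∨ co a b = 0 ∨ co a b = 1 ∨ co a b = 2 := by
  obtain ⟨k, hk⟩ := C.rs.int a ha b hb
  have h1 := C.le2 a ha b hb
  have h2 := C.two_le ha hb
  rw [hk] at h1 h2 ⊢
  have h3 : k ≤ 2 := by exact_mod_cast h1
  have h4 : -2 ≤ k := by exact_mod_cast h2
  have h5 : k = -2 ∨ k = -1 ∨ k = 0 ∨ k = 1 ∨ k = 2 := by omega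
  rcases h5 with rfl | rfl | rfl | rfl | rfl
  · left; norm_num
  · right; left; norm_num
  · right; right; left; norm_num
  · right; right; right; left; norm_num
  · right; right; right; right; norm_num

/-- The ratio of the lengths. -/
theorem Ep.ratio {a b : E} (ha : a ∈ Φ) (hb : b ∈ Φ) (h : (inner ℝ a b : ℝ) ≠ 0) :
    (inner ℝ b b : ℝ) = inner ℝ a a ∨ (inner ℝ b b : ℝ) = 2 * inner ℝ a a ∨ (inner ℝ b b : ℝ) = inner ℝ a a / 2 := by
  have h1 := co_mul_co (C.rs.ne_zero a ha) (C.rs.ne_zero b hb)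
  have h2 := C.pos ha
  have h3 := C.pos hb
  have h4 : co b a ≠ 0 := fun h5 => h ((inn_eq_zero C.rs hb a).2 h5)
  have h5 : co a b ≠ 0 := fun h5 => h (by
    rw [real_inner_comm]
    exact (inn_eq_zero C.rs ha b).2 h5)
  rcases C.co_five ha hb with e | e | e | e | e
  · rcases C.co_five hb ha with f | f | f | f | f
    · left; rw [e, f] at h1; linarith
    · right; left; rw [e, f] at h1; linarith
    · exact absurd f h4
    · rw [e, f] at h1; exfalso; linarith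
    · rw [e, f] at h1; exfalso; linarith
  · rcases C.co_five hb ha with f | f | f | f | f
    · right; right; rw [e, f] at h1; linarith
    · left; rw [e, f] at h1; linarith
    · exact absurd f h4
    · rw [e, f] at h1; exfalso; linarith
    · rw [e, f] at h1; exfalso; linarith
  · exact absurd e h5
  · rcases C.co_five hb ha with f | f | f | f | f
    · rw [e, f] at h1; exfalso; linarith
    · rw [e, f] at h1; exfalso; linarith
    · exact absurd f h4
    · left; rw [e, f] at h1; linarith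
    · right; right; rw [e, f] at h1; linarith
  · rcases C.co_five hb ha with f | f | f | f | f
    · rw [e, f] at h1; exfalso; linarith
    · rw [e, f] at h1; exfalso; linarith
    · exact absurd f h4
    · right; left; rw [e, f] at h1; linarith
    · left; rw [e, f] at h1; linarith

theorem Ep.sub_mem {a x : E} (ha : a ∈ Φ) (hx : x ∈ X) (h : 0 < co a x) : x - a ∈ X := by
  obtain ⟨k, hk⟩ := C.sat.int a ha x hx
  have h1 : 1 ≤ k := by
    rw [hk] at h
    have : 0 < k := by exact_mod_cast h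
    omega
  have h2 := C.sat.str a ha x hx 1 (by rw [hk]; exact_mod_cast h1)
  simpa using h2

theorem Ep.add_mem {a x : E} (ha : a ∈ Φ) (hx : x ∈ X) (h : co a x < 0) : x + a ∈ X := by
  have h1 := C.sub_mem (C.neg ha) hx (by rw [PF.co_neg_left]; linarith)
  simpa using h1

/-- the same with inner products -/
theorem Ep.sub_mem' {a x : E} (ha : a ∈ Φ) (hx : x ∈ X) (h : (0 : ℝ) < inner ℝ x a) : x - a ∈ X :=
  C.sub_mem ha hx ((inn_pos C.rs ha x).1 h)

theorem Ep.add_mem' {a x : E} (ha : a ∈ Φ) (hx : x ∈ X) (h : (inner ℝ x a : ℝ) < 0) : x + a ∈ X :=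
  C.add_mem ha hx ((inn_neg C.rs ha x).1 h)

theorem Ep.mem {i : ℕ} (hi : i < p) : ν i ∈ X ∧ ℓ (ν i) = c := (C.top _).2 ⟨i, hi, rfl⟩

theorem Ep.le_lev {x : E} (hx : x ∈ X) : -c ≤ ℓ x := by
  have h1 := C.lev _ (C.negX hx)
  rw [map_neg] at h1
  linarith

/-- The weights of the top level have non-negative products with the roots of positive level. -/
theorem Ep.top_nonneg {g : E} (hg : g ∈ Φ) (h0 : 0 < ℓ g) {i : ℕ} (hi : i < p) : (0 : ℝ) ≤ inner ℝ (ν i) g := by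
  by_contra h1
  push Not at h1
  have h2 := C.lev _ (C.add_mem' hg (C.mem hi).1 h1)
  rw [map_add, (C.mem hi).2] at h2
  linarith

/-- A root of level zero with a positive product moves a top weight to a top weight. -/
theorem Ep.top_sub {g : E} (hg : g ∈ Φ) (h0 : ℓ g = 0) {i : ℕ} (hi : i < p) (h : (0 : ℝ) < inner ℝ (ν i) g) :
    ∃ j < p, ν i - g = ν j := by
  refine (C.top _).1 ⟨C.sub_mem' hg (C.mem hi).1 h, ?_⟩
  rw [map_sub, h0, (C.mem hi).2, sub_zero]

/-- A root of level zero is not orthogonal to some root of positive level. -/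
theorem Ep.exists_lev {a : E} (ha : a ∈ Φ) (h0 : ℓ a = 0) : ∃ b ∈ Φ, 0 < ℓ b ∧ (inner ℝ a b : ℝ) ≠ 0 := by
  classical
  have hp := C.five
  suffices h : ∃ b ∈ Φ, ℓ b ≠ 0 ∧ (inner ℝ a b : ℝ) ≠ 0 by
    obtain ⟨b, hb, hb0, hab⟩ := h
    rcases lt_or_gt_of_ne hb0 with h1 | h1
    · refine ⟨-b, C.neg hb, by rw [map_neg]; linarith, ?_⟩
      rw [inner_neg_right]
      exact neg_ne_zero.2 hab
    · exact ⟨b, hb, h1, hab⟩
  by_contra hcon
  push Not at hcon
  obtain ⟨S, hS⟩ : ∃ S : Finset E, ∀ c, c ∈ S ↔ c ∈ Φ ∧ ℓ c = 0 ∧ ∀ b ∈ Φ, ℓ b ≠ 0 → (inner ℝ c b : ℝ) = 0 :=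
    ⟨Φ.filter fun c => ℓ c = 0 ∧ ∀ b ∈ Φ, ℓ b ≠ 0 → (inner ℝ c b : ℝ) = 0, fun c => by simp⟩
  have h1 : S = Φ := by
    refine C.rs.irr S (fun c hc => ((hS c).1 hc).1) ⟨a, (hS a).2 ⟨ha, h0, hcon⟩⟩ ?_
    intro c hc d hd hdS
    obtain ⟨hcΦ, hc0, hcb⟩ := (hS c).1 hc
    by_cases hd0 : ℓ d = 0
    · have h2 : ∃ b ∈ Φ, ℓ b ≠ 0 ∧ (inner ℝ d b : ℝ) ≠ 0 := by
        by_contra h3
        push Not at h3
        exact hdS ((hS d).2 ⟨hd, hd0, h3⟩)
      obtain ⟨b, hb, hb0, hdb⟩ := h2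
      have h3 := hcb _ (C.refl hd hb) (by
        rw [map_sub, map_smul, hd0, smul_zero, sub_zero]
        exact hb0)
      rw [inner_sub_right, inner_smul_right, hcb b hb hb0, zero_sub] at h3
      have h5 : co d b ≠ 0 := by
        intro h6
        apply hdb
        rw [real_inner_comm]
        exact (inn_eq_zero C.rs hd b).2 h6
      simp at h3
      rcases h3 with h6 | h6
      · exact absurd h6 h5
      · exact h6
    · exact hcb d hd hd0
  have h2 : ∀ c ∈ Φ, ℓ c = 0 := fun c hc => by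
    rw [← h1] at hc
    exact ((hS c).1 hc).2.1
  have h3 := C.sat.coset (ν 0) (C.mem (by omega)).1 (-ν 0) (C.negX (C.mem (by omega)).1)
  have h4 : ∀ z ∈ AddSubgroup.closure (Φ : Set E), ℓ z = 0 := by
    intro z hz
    induction hz using AddSubgroup.closure_induction with
    | mem z hz => exact h2 z hz
    | zero => exact map_zero _
    | add z w _ _ h5 h6 => rw [map_add, h5, h6, add_zero]
    | neg z _ h5 => rw [map_neg, h5, neg_zero]
  have h5 := h4 _ h3
  rw [map_sub, map_neg, (C.mem (i := 0) (by omega)).2] at h5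
  have := C.cpos
  linarith

/-- Two roots with a negative product. -/
theorem Ep.add_root {a b : E} (ha : a ∈ Φ) (hb : b ∈ Φ) (h : (inner ℝ a b : ℝ) < 0) (h0 : 0 < ℓ a + ℓ b) : a + b ∈ Φ := by
  refine C.rs.add_mem ha hb h ?_
  rintro rfl
  rw [map_neg] at h0
  linarith

omit C

/-- Type `A`: the data. Goal: `ν i + ν j` is a root for all `i ≠ j`. -/
structure EA (Φ X : Finset E) (ℓ : E →ₗ[ℝ] ℝ) (c : ℝ) (p : ℕ) (ν : ℕ → E) (l : ℝ) : Prop where
  ep : Ep Φ X ℓ c p ν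
  lpos : 0 < l
  mem : ∀ i < p, ∀ j < p, i ≠ j → ν i - ν j ∈ Φ
  norm : ∀ i < p, ∀ j < p, i ≠ j → inner ℝ (ν i - ν j) (ν i - ν j) = l
  inn : ∀ k < p, ∀ i < p, ∀ j < p, inner ℝ (ν k) (ν i - ν j) = (l / 2) * ((if k = i then 1 else 0) - (if k = j then 1 else 0))

theorem Ep.toEA (C : Ep Φ X ℓ c p ν) (h : IsA Φ p ν) : ∃ l, EA Φ X ℓ c p ν l := by
  obtain ⟨l, hl, h⟩ := h
  refine ⟨l, C, hl, fun i hi j hj hij => (h i hi j hj hij).1, fun i hi j hj hij => (h i hi j hj hij).2.1, ?_⟩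
  intro k hk i hi j hj
  by_cases hij : i = j
  · subst hij
    rw [sub_self, inner_zero_right, sub_self, mul_zero]
  · exact (h i hi j hj hij).2.2 k hk

/-- `x` has a type: orthogonal to all `ν i - ν j`, or one coordinate deviates by one. (This is (3.0), to be proved for all
weights, block EP-T: `theorem EA.typ (A : EA Φ X ℓ c p ν l) : ∀ x ∈ X, Typ p ν l x`.) -/
def Typ (p : ℕ) (ν : ℕ → E) (l : ℝ) (x : E) : Prop :=
  (∀ i < p, ∀ j < p, inner ℝ x (ν i - ν j) = (0 : ℝ)) ∨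
  ∃ s : ℝ, (s = 1 ∨ s = -1) ∧ ∃ k < p, ∀ i < p, ∀ j < p,
    inner ℝ x (ν i - ν j) = s * (l / 2) * ((if k = i then 1 else 0) - (if k = j then 1 else 0))

end EP
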