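import Pool.Agent.Helper94.PG.Config3
import Pool.Agent.Helper94.EP.Defs

/-!
Project EP (MP_b8862a_ag): the weights of the top level, no bound for the pairings.
-/

set_option linter.unusedSectionVars false
set_option linter.unusedVariables false

namespace EP

open PF PG

variable {E : Type*} [NormedAddCommGroup E] [InnerProductSpace ℝ E]

/-- A root system `Φ` and a set of weights `Y`. -/
structure TopG (Φ Y : Finset E) : Prop where
  ne_zero : ∀ a ∈ Φ, a ≠ 0
  int : ∀ a ∈ Φ, ∀ b ∈ Φ, ∃ k : ℤ, co a b = k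
  refl : ∀ a ∈ Φ, ∀ b ∈ Φ, b - co a b • a ∈ Φ
  red : ∀ a ∈ Φ, ∀ c : ℝ, c • a ∈ Φ → c = 1 ∨ c = -1
  le2 : ∀ a ∈ Φ, ∀ b ∈ Φ, co a b ≤ 2
  intY : ∀ a ∈ Φ, ∀ x ∈ Y, ∃ k : ℤ, co a x = k
  str : ∀ a ∈ Φ, ∀ x ∈ Y, ∀ j : ℕ, (j : ℝ) ≤ co a x → x - (j : ℝ) • a ∈ Y

variable {Φ Y : Finset E} (T : TopG Φ Y)
include T

theorem TopG.rfY {a x : E} (ha : a ∈ Φ) (hx : x ∈ Y) (h : 0 ≤ co a x) : rf a x ∈ Y := by
  obtain ⟨k, hk⟩ := T.intY a ha x hx
  have h1 : (0 : ℤ) ≤ k := by
    rw [hk] at h
    exact_mod_cast h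
  obtain ⟨j, rfl⟩ := Int.eq_ofNat_of_zero_le h1
  have h2 := T.str a ha x hx j (by rw [hk]; simp)
  unfold rf
  rw [hk]
  simpa using h2

/-- the counting argument -/
theorem TopG.count {lam a : E} {s m : ℕ} (hlam : lam ∈ Y) (ha : a ∈ Φ) (hm : co a lam = m) (hm1 : 1 ≤ m) (hYs : Y.card ≤ s)
    (h7 : s ≤ m + (PP Φ lam).card) :
    Y.card = s ∧ s = m + (PP Φ lam).card ∧ ∀ y ∈ Y, y = lam ∨
      (∃ g ∈ Φ, 1 ≤ co g lam ∧ y = lam - g) ∨ (∃ j : ℕ, 2 ≤ j ∧ j ≤ m ∧ y = lam - (j : ℝ) • a) := by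
  classical
  have hPP : ∀ g, g ∈ PP Φ lam ↔ g ∈ Φ ∧ 1 ≤ co g lam := by
    intro g
    simp [PP]
  have ha0 := T.ne_zero a ha
  obtain ⟨A, hA⟩ : ∃ A : Finset E, A = (PP Φ lam).image (fun g => lam - g) := ⟨_, rfl⟩
  obtain ⟨C, hC⟩ : ∃ C : Finset E, C = (Finset.Icc 2 m).image (fun j : ℕ => lam - (j : ℝ) • a) := ⟨_, rfl⟩
  have hmA : ∀ y, y ∈ A ↔ ∃ g ∈ Φ, 1 ≤ co g lam ∧ y = lam - g := by
    intro y
    rw [hA, Finset.mem_image]
    constructor
    · rintro ⟨g, hg, rfl⟩
      exact ⟨g, ((hPP g).1 hg).1, ((hPP g).1 hg).2, rfl⟩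
    · rintro ⟨g, hg, hg1, rfl⟩
      exact ⟨g, (hPP g).2 ⟨hg, hg1⟩, rfl⟩
  have hmC : ∀ y, y ∈ C ↔ ∃ j : ℕ, 2 ≤ j ∧ j ≤ m ∧ y = lam - (j : ℝ) • a := by
    intro y
    rw [hC, Finset.mem_image]
    constructor
    · rintro ⟨j, hj, rfl⟩
      rw [Finset.mem_Icc] at hj
      exact ⟨j, hj.1, hj.2, rfl⟩
    · rintro ⟨j, hj, hj', rfl⟩
      exact ⟨j, Finset.mem_Icc.2 ⟨hj, hj'⟩, rfl⟩
  have hAc : A.card = (PP Φ lam).card := by
    rw [hA, Finset.card_image_of_injective]
    intro g h hgh
    simpa using hgh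
  have hCc : C.card = m - 1 := by
    rw [hC, Finset.card_image_of_injective, Nat.card_Icc]
    · omega
    · intro i j hij
      have h2 : ((i : ℝ) - j) • a = 0 := by
        have h3 : (i : ℝ) • a = (j : ℝ) • a := by simpa using hij
        rw [sub_smul, h3, sub_self]
      rcases smul_eq_zero.1 h2 with h3 | h3
      · have : (i : ℝ) = j := by linarith
        exact_mod_cast this
      · exact absurd h3 ha0
  have hAY : A ⊆ Y := by
    intro y hy
    obtain ⟨g, hg, hg1, rfl⟩ := (hmA y).1 hy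
    have := T.str g hg lam hlam 1 (by simpa using hg1)
    simpa using this
  have hCY : C ⊆ Y := by
    intro y hy
    obtain ⟨j, hj, hj', rfl⟩ := (hmC y).1 hy
    exact T.str a ha lam hlam j (by rw [hm]; exact_mod_cast hj')
  have hlA : lam ∉ A := by
    intro h
    obtain ⟨g, hg, hg1, h2⟩ := (hmA _).1 h
    exact T.ne_zero g hg (by
      have : lam - (lam - g) = 0 := by rw [← h2, sub_self]
      simpa using this)
  have hlC : lam ∉ C := by
    intro h
    obtain ⟨j, hj, hj', h2⟩ := (hmC _).1 h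
    have h3 : (j : ℝ) • a = 0 := by
      have : lam - (lam - (j : ℝ) • a) = 0 := by rw [← h2, sub_self]
      simpa using this
    rcases smul_eq_zero.1 h3 with h4 | h4
    · have : j = 0 := by exact_mod_cast h4
      omega
    · exact ha0 h4
  have hAC : Disjoint A C := by
    rw [Finset.disjoint_left]
    intro y hy hy'
    obtain ⟨g, hg, hg1, rfl⟩ := (hmA y).1 hy
    obtain ⟨j, hj, hj', h2⟩ := (hmC _).1 hy'
    have h3 : g = (j : ℝ) • a := by simpa using h2
    rcases T.red a ha (j : ℝ) (h3 ▸ hg) with h4 | h4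
    · have : j = 1 := by exact_mod_cast h4
      omega
    · have h5 : (0 : ℝ) ≤ j := Nat.cast_nonneg j
      linarith
  have hU : insert lam (A ∪ C) ⊆ Y := by
    intro y hy
    rw [Finset.mem_insert, Finset.mem_union] at hy
    rcases hy with rfl | hy | hy
    · exact hlam
    · exact hAY hy
    · exact hCY hy
  have hUc : (insert lam (A ∪ C)).card = 1 + (PP Φ lam).card + (m - 1) := by
    rw [Finset.card_insert_of_notMem (by rw [Finset.mem_union]; tauto), Finset.card_union_of_disjoint hAC, hAc, hCc]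
    omega
  have h5 := Finset.card_le_card hU
  have h8 : Y.card = s := by omega
  have h9 : s = m + (PP Φ lam).card := by omega
  refine ⟨h8, h9, ?_⟩
  have h10 : insert lam (A ∪ C) = Y := Finset.eq_of_subset_of_card_le hU (by omega)
  intro y hy
  rw [← h10, Finset.mem_insert, Finset.mem_union] at hy
  rcases hy with h | h | h
  · exact Or.inl h
  · exact Or.inr (Or.inl ((hmA y).1 h))
  · exact Or.inr (Or.inr ((hmC y).1 h))

/-- Another root with a positive pairing: the pairings are at most two. -/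
theorem TopG.le_two {lam a : E} {s m : ℕ} (hlam : lam ∈ Y) (ha : a ∈ Φ) (hm : co a lam = m) (hm1 : 1 ≤ m) (hYs : Y.card ≤ s)
    (h7 : s ≤ m + (PP Φ lam).card) {b : E} (hb : b ∈ Φ) (hb1 : 1 ≤ co b lam) (hne : b ≠ a) :
    ∀ g ∈ Φ, ∀ x ∈ Y, co g x ≤ 2 := by
  classical
  obtain ⟨hYc, hsc, hY⟩ := T.count hlam ha hm hm1 hYs h7
  have ha0 := T.ne_zero a ha
  have hb0 := T.ne_zero b hb
  -- the pairing with `a` is not three or more
  have hm2 : m ≤ 2 := by
    by_contra hcon
    push Not at hcon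
    have hm3 : (3 : ℝ) ≤ m := by exact_mod_cast hcon
    have hgY : lam - b ∈ Y := by
      have := T.str b hb lam hlam 1 (by simpa using hb1)
      simpa using this
    have hk2 := T.le2 a ha b hb
    have hco : co a (lam - b) = m - co a b := by rw [PG.co_sub, hm]
    have hy := T.rfY ha hgY (by rw [hco]; linarith)
    have hyeq : rf a (lam - b) = lam - b - (m - co a b) • a := by
      unfold rf
      rw [hco]
    rw [hyeq] at hy
    have hlin : ∀ j : ℝ, 0 ≤ j → lam - b - (m - co a b) • a = lam - j • a → False := by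
      intro j hj h4
      have h5 : b = (j - (m - co a b)) • a := by
        have h6 : lam - (lam - b - (m - co a b) • a) = lam - (lam - j • a) := by rw [h4]
        rw [sub_sub_cancel] at h6
        have h7 : b + (m - co a b) • a = j • a := by
          rw [← h6]; module
        rw [sub_smul, ← h7]; module
      rcases T.red a ha _ (h5 ▸ hb) with h8 | h8
      · rw [h8, one_smul] at h5
        exact hne h5
      · rw [h8, neg_smul, one_smul] at h5
        have h9 : co b lam = -m := by rw [h5, PF.co_neg_left, hm]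
        linarith
    rcases hY _ hy with h4 | ⟨g', hg', hg1', h4⟩ | ⟨j, -, -, h4⟩
    · exact hlin 0 le_rfl (by rw [h4]; simp)
    · have h5 : g' = b + (m - co a b) • a := by
        have h6 : lam - (lam - g') = lam - (lam - b - (m - co a b) • a) := by rw [h4]
        rw [sub_sub_cancel] at h6
        rw [h6]; module
      have h6 := congrArg (co a) h5
      rw [co_add, co_smul, co_self' ha0] at h6
      have h7 := T.le2 a ha g' hg'
      linarith
    · exact hlin j (Nat.cast_nonneg j) h4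
  have hY' : ∀ y ∈ Y, y = lam ∨ (∃ g ∈ Φ, 1 ≤ co g lam ∧ y = lam - g) ∨ (co a lam = 2 ∧ y = lam - (2 : ℝ) • a) := by
    intro y hy
    rcases hY y hy with h | h | ⟨j, hj1, hj2, h⟩
    · exact Or.inl h
    · exact Or.inr (Or.inl h)
    · have hj : j = 2 := by omega
      have hm' : m = 2 := by omega
      refine Or.inr (Or.inr ⟨by rw [hm, hm']; norm_num, by rw [h, hj]; norm_num⟩)
  -- all pairings with `lam`
  have hl2 : ∀ g ∈ Φ, 2 ≤ co g lam → g = a ∧ co a lam = 2 := by
    intro g hg hg2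
    have h2 := T.str g hg lam hlam 2 (by exact_mod_cast hg2)
    have h2' : lam - (2 : ℝ) • g ∈ Y := by exact_mod_cast h2
    rcases hY' _ h2' with h | ⟨g', hg', hg1', h⟩ | ⟨h3, h⟩
    · exfalso
      have h5 : (2 : ℝ) • g = 0 := by
        have : lam - (lam - (2 : ℝ) • g) = 0 := by rw [h, sub_self]
        simpa using this
      rcases smul_eq_zero.1 h5 with h6 | h6
      · norm_num at h6
      · exact T.ne_zero g hg h6
    · exfalso
      have h5 : g' = (2 : ℝ) • g := by
        have h6 : lam - (lam - g') = lam - (lam - (2 : ℝ) • g) := by rw [h]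
        rw [sub_sub_cancel, sub_sub_cancel] at h6
        exact h6
      rcases T.red g hg 2 (h5 ▸ hg') with h6 | h6 <;> norm_num at h6
    · have h5 : (2 : ℝ) • g = (2 : ℝ) • a := by
        have h6 : lam - (lam - (2 : ℝ) • g) = lam - (lam - (2 : ℝ) • a) := by rw [h]
        rw [sub_sub_cancel, sub_sub_cancel] at h6
        exact h6
      have h6 : g = a := by
        have h7 := congrArg (fun v : E => (1 / 2 : ℝ) • v) h5
        simpa [smul_smul] using h7
      exact ⟨h6, h3⟩
  have hl : ∀ g ∈ Φ, co g lam ≤ 2 := by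
    intro g hg
    by_contra hcon
    push Not at hcon
    obtain ⟨rfl, h3⟩ := hl2 g hg hcon.le
    linarith
  have hrefl : ∀ g ∈ Φ, ∀ h ∈ Φ, co g (rf h lam) ≤ 2 := by
    intro g hg h hh
    have h0 := T.ne_zero h hh
    have h2 : co g (rf h lam) = co (rf h g) lam := by
      have h3 := co_rf h0 (rf h g) lam
      rw [rf_rf h0] at h3
      exact h3
    rw [h2]
    exact hl _ (T.refl h hh g hg)
  have hcases : ∀ h ∈ Φ, 1 ≤ co h lam → co h lam = 1 ∨ co h lam = 2 := by
    intro h hh h1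
    obtain ⟨k, hk⟩ := T.intY h hh lam hlam
    have h2 := hl h hh
    rw [hk] at h1 h2 ⊢
    have h3 : 1 ≤ k := by exact_mod_cast h1
    have h4 : k ≤ 2 := by exact_mod_cast h2
    have : k = 1 ∨ k = 2 := by omega
    rcases this with rfl | rfl
    · left; norm_num
    · right; norm_num
  intro g hg x hx
  rcases hY' x hx with rfl | ⟨h, hh, hh1, rfl⟩ | ⟨h2, rfl⟩
  · exact hl g hg
  · rcases hcases h hh hh1 with h3 | h3
    · have h4 : lam - h = rf h lam := by
        unfold rf
        rw [h3, one_smul]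
      rw [h4]
      exact hrefl g hg h hh
    · obtain ⟨rfl, -⟩ := hl2 h hh (by rw [h3])
      -- `x = lam - h`, the middle weight
      by_contra hcon
      push Not at hcon
      have h6 := T.rfY hg hx (by linarith)
      have hh0 := T.ne_zero h hh
      have hg0 := T.ne_zero g hg
      have hn1 : (inner ℝ (rf g (lam - h)) (rf g (lam - h)) : ℝ) = inner ℝ (lam - h) (lam - h) := inner_rf hg0 _ _
      have hpos : (0 : ℝ) < inner ℝ h h := real_inner_self_pos.2 hh0
      have hlh : (inner ℝ lam h : ℝ) = inner ℝ h h := by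
        have h7 := inner_of_co hh0 lam
        rw [h3] at h7
        linarith
      have hn2 : (inner ℝ (lam - h) (lam - h) : ℝ) = inner ℝ lam lam - inner ℝ h h := by
        rw [inner_sub_left, inner_sub_right, inner_sub_right, real_inner_comm lam h, hlh]
        ring
      rcases hY' _ h6 with h7 | ⟨k, hk, hk1, h7⟩ | ⟨h8, h7⟩
      · rw [h7, hn2] at hn1
        linarith
      · rcases hcases k hk hk1 with h8 | h8
        · have h9 : lam - k = rf k lam := by
            unfold rf
            rw [h8, one_smul]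
          rw [h7, h9, inner_rf (T.ne_zero k hk), hn2] at hn1
          linarith
        · obtain ⟨rfl, -⟩ := hl2 k hk (by rw [h8])
          unfold rf at h7
          have h9 : (co g (lam - k)) • g = 0 := by
            have : lam - k - (lam - k - (co g (lam - k)) • g) = 0 := by rw [h7, sub_self]
            simpa using this
          rcases smul_eq_zero.1 h9 with h10 | h10
          · rw [h10] at hcon
            norm_num at hcon
          · exact hg0 h10
      · have h9 : lam - (2 : ℝ) • h = rf h lam := by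
          unfold rf
          rw [h3]
        rw [h7, h9, inner_rf hh0, hn2] at hn1
        linarith
  · have h4 : lam - (2 : ℝ) • a = rf a lam := by
      unfold rf
      rw [h2]
    rw [h4]
    exact hrefl g hg a ha

/-- **The configuration of the top level.** -/
theorem TopG.config {lam a : E} {s m : ℕ} (hlam : lam ∈ Y) (ha : a ∈ Φ) (hm : co a lam = m) (hm1 : 1 ≤ m) (hYs : Y.card ≤ s)
    (h7 : s ≤ m + (PP Φ lam).card) (hodd : Odd s) (h5 : 5 ≤ s) :
    m + 1 = s ∨ ((∃ b ∈ Φ, 1 ≤ co b lam ∧ b ≠ a) ∧ Y.card = s ∧ ∃ ν : ℕ → E, (∀ i < s, ν i ∈ Y) ∧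
      (∀ i < s, ∀ j < s, ν i = ν j → i = j) ∧ (∀ y ∈ Y, ∃ i < s, ν i = y) ∧ (IsA Φ s ν ∨ IsB Φ s ν)) := by
  by_cases h : ∃ b ∈ Φ, 1 ≤ co b lam ∧ b ≠ a
  · right
    refine ⟨h, ?_⟩
    obtain ⟨b, hb, hb1, hne⟩ := h
    have h2 := T.le_two hlam ha hm hm1 hYs h7 hb hb1 hne
    have hT : Top Φ Y := ⟨T.ne_zero, T.int, T.refl, T.red, fun a ha b hb h => by
      have := T.le2 a ha b hb
      rw [h] at this
      norm_num at this, T.intY, T.str, h2⟩
    obtain ⟨h8, ν, h9, h10, h11, h12⟩ := config_all hT hlam ha (by rw [hm]; exact_mod_cast hm1) hYs (by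
      rw [hm]; exact_mod_cast h7) hodd (by omega)
    refine ⟨h8, ν, h9, h10, h11, ?_⟩
    rcases h12 with h12 | ⟨-, h12⟩ | ⟨h12, -⟩
    · exact Or.inl h12
    · exact Or.inr h12
    · omega
  · left
    obtain ⟨-, h8, -⟩ := T.count hlam ha hm hm1 hYs h7
    have h9 : PP Φ lam = {a} := by
      ext g
      rw [Finset.mem_singleton]
      constructor
      · intro hg
        by_contra hne
        unfold PP at hg
        rw [Finset.mem_filter] at hg
        exact h ⟨g, hg.1, hg.2, hne⟩
      · rintro rfl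
        unfold PP
        rw [Finset.mem_filter]
        exact ⟨ha, by rw [hm]; exact_mod_cast hm1⟩
    rw [h9, Finset.card_singleton] at h8
    exact h8.symm

omit T

/-- A root of level zero is not orthogonal to some root of positive level. -/
theorem exists_lev0 {X : Finset E} {ℓ : E →ₗ[ℝ] ℝ} (hR : RS Φ) (hS : Sat Φ X) {x0 : E} (hx0 : x0 ∈ X) (h00 : ℓ x0 ≠ 0)
    {a : E} (ha : a ∈ Φ) (h0 : ℓ a = 0) : ∃ b ∈ Φ, 0 < ℓ b ∧ (inner ℝ a b : ℝ) ≠ 0 := by
  classical
  suffices h : ∃ b ∈ Φ, ℓ b ≠ 0 ∧ (inner ℝ a b : ℝ) ≠ 0 by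
    obtain ⟨b, hb, hb0, hab⟩ := h
    rcases lt_or_gt_of_ne hb0 with h1 | h1
    · refine ⟨-b, hR.neg_mem hb, by rw [map_neg]; linarith, ?_⟩
      rw [inner_neg_right]
      exact neg_ne_zero.2 hab
    · exact ⟨b, hb, h1, hab⟩
  by_contra hcon
  push Not at hcon
  obtain ⟨S, hS'⟩ : ∃ S : Finset E, ∀ c, c ∈ S ↔ c ∈ Φ ∧ ℓ c = 0 ∧ ∀ b ∈ Φ, ℓ b ≠ 0 → (inner ℝ c b : ℝ) = 0 :=
    ⟨Φ.filter fun c => ℓ c = 0 ∧ ∀ b ∈ Φ, ℓ b ≠ 0 → (inner ℝ c b : ℝ) = 0, fun c => by simp⟩
  have h1 : S = Φ := by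
    refine hR.irr S (fun c hc => ((hS' c).1 hc).1) ⟨a, (hS' a).2 ⟨ha, h0, hcon⟩⟩ ?_
    intro c hc d hd hdS
    obtain ⟨hcΦ, hc0, hcb⟩ := (hS' c).1 hc
    by_cases hd0 : ℓ d = 0
    · have h2 : ∃ b ∈ Φ, ℓ b ≠ 0 ∧ (inner ℝ d b : ℝ) ≠ 0 := by
        by_contra h3
        push Not at h3
        exact hdS ((hS' d).2 ⟨hd, hd0, h3⟩)
      obtain ⟨b, hb, hb0, hdb⟩ := h2
      have h3 := hcb _ (hR.refl d hd b hb) (by
        rw [map_sub, map_smul, hd0, smul_zero, sub_zero]
        exact hb0)
      rw [inner_sub_right, inner_smul_right, hcb b hb hb0, zero_sub] at h3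
      have h5 : co d b ≠ 0 := by
        intro h6
        apply hdb
        rw [real_inner_comm]
        exact (TR.inn_eq_zero hR hd b).2 h6
      simp at h3
      rcases h3 with h6 | h6
      · exact absurd h6 h5
      · exact h6
    · exact hcb d hd hd0
  have h2 : ∀ c ∈ Φ, ℓ c = 0 := fun c hc => by
    rw [← h1] at hc
    exact ((hS' c).1 hc).2.1
  have h3 := hS.coset x0 hx0 (-x0) (hS.neg _ hx0)
  have h4 : ∀ z ∈ AddSubgroup.closure (Φ : Set E), ℓ z = 0 := by
    intro z hz
    induction hz using AddSubgroup.closure_induction with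
    | mem z hz => exact h2 z hz
    | zero => exact map_zero _
    | add z w _ _ h5 h6 => rw [map_add, h5, h6, add_zero]
    | neg z _ h5 => rw [map_neg, h5, neg_zero]
  have h5 := h4 _ h3
  rw [map_sub, map_neg] at h5
  apply h00
  linarith

/-- The top level is not a string. -/
theorem no_string {X : Finset E} {ℓ : E →ₗ[ℝ] ℝ} (hR : RS Φ) (hS : Sat Φ X) {c : ℝ} (hc : 0 < c)
    (hlev : ∀ x ∈ X, ℓ x ≤ c) {a lam : E} (ha : a ∈ Φ) (ha0 : ℓ a = 0) (hlam : lam ∈ X) (hl : ℓ lam = c) {m p : ℕ}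
    (hm : co a lam = m) (hp : m + 1 = p) (hsm : 2 * X.card ≤ p ^ 2) : False := by
  classical
  obtain ⟨g, hg, hg0, hga⟩ : ∃ g ∈ Φ, 0 < ℓ g ∧ co g a < 0 := by
    obtain ⟨b, hb, hb0, hab⟩ := exists_lev0 hR hS hlam (by rw [hl]; exact hc.ne') ha ha0
    have h1 : co b a ≠ 0 := fun h => hab ((TR.inn_eq_zero hR hb a).2 h)
    rcases lt_or_gt_of_ne h1 with h2 | h2
    · exact ⟨b, hb, hb0, h2⟩
    · refine ⟨b - co a b • a, hR.refl a ha b hb, ?_, ?_⟩
      · rw [map_sub, map_smul, ha0, smul_zero, sub_zero]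
        exact hb0
      · have h3 : (0 : ℝ) < inner ℝ a b := by
          have h4 := (TR.inn_pos hR hb a).2 h2
          exact h4
        have h5 : (inner ℝ a (b - co a b • a) : ℝ) = -inner ℝ a b := by
          rw [inner_sub_right, inner_smul_right]
          have h6 : (inner ℝ a a : ℝ) ≠ 0 := (hR.inner_pos ha).ne'
          unfold co
          rw [real_inner_comm a b]
          field_simp
          ring
        exact (TR.inn_neg hR (hR.refl a ha b hb) a).1 (by rw [h5]; linarith)
  obtain ⟨k, hk⟩ := hR.int g hg a ha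
  have hk1 : co g a ≤ -1 := by
    rw [hk] at hga ⊢
    have : k < 0 := by exact_mod_cast hga
    have : k ≤ -1 := by omega
    exact_mod_cast this
  have hgl : 0 ≤ co g lam := by
    by_contra hcon
    push Not at hcon
    obtain ⟨q, hq⟩ := hS.int g hg lam hlam
    have h1 : (1 : ℝ) ≤ co (-g) lam := by
      rw [PF.co_neg_left, hq]
      rw [hq] at hcon
      have : q < 0 := by exact_mod_cast hcon
      have : 1 ≤ -q := by omega
      exact_mod_cast this
    have h2 := hS.str (-g) (hR.neg_mem hg) lam hlam 1 (by simpa using h1)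
    have h3 := hlev _ h2
    rw [map_sub, map_smul, map_neg, hl] at h3
    simp at h3
    linarith
  have hmem : ∀ j i : ℕ, j < p → i ≤ j → lam - (j : ℝ) • a - (i : ℝ) • g ∈ X := by
    intro j i hj hi
    have h1 := hS.str a ha lam hlam j (by
      rw [hm]
      have : j ≤ m := by omega
      exact_mod_cast this)
    refine hS.str g hg _ h1 i ?_
    rw [PG.co_sub, co_smul]
    have h2 : (i : ℝ) ≤ j := by exact_mod_cast hi
    have h3 : (0 : ℝ) ≤ j := Nat.cast_nonneg j
    nlinarith
  let T : Finset (Σ _ : ℕ, ℕ) := (Finset.range p).sigma fun j => Finset.range (j + 1)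
  have hT : 2 * T.card = p * (p + 1) := by
    have h1 : T.card = ∑ j ∈ Finset.range p, (j + 1) := by
      rw [Finset.card_sigma]
      simp
    rw [h1]
    clear h1 T hmem hsm hp
    induction p with
    | zero => simp
    | succ n ih =>
      rw [Finset.sum_range_succ, mul_add, ih]
      ring
  have hle : T.card ≤ X.card := by
    refine Finset.card_le_card_of_injOn (fun q => lam - (q.1 : ℝ) • a - (q.2 : ℝ) • g) ?_ ?_
    · rintro ⟨j, i⟩ hq
      have hq' := Finset.mem_sigma.1 hq
      simp only [Finset.mem_range] at hq'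
      exact hmem j i hq'.1 (by omega)
    · rintro ⟨j, i⟩ hq ⟨j', i'⟩ hq' h
      simp only at h
      have h1 := congrArg ℓ h
      rw [map_sub, map_sub, map_sub, map_sub, map_smul, map_smul, map_smul, map_smul, ha0] at h1
      simp at h1
      have h2 : i = i' := by
        rcases h1 with h1 | h1
        · exact h1
        · exact absurd h1 hg0.ne'
      subst h2
      have h3 : (j : ℝ) • a = (j' : ℝ) • a := by
        have h4 : lam - (j : ℝ) • a = lam - (j' : ℝ) • a := by simpa using h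
        simpa using h4
      have h5 : ((j : ℝ) - j') • a = 0 := by rw [sub_smul, h3, sub_self]
      rcases smul_eq_zero.1 h5 with h6 | h6
      · have : (j : ℝ) = j' := by linarith
        have : j = j' := by exact_mod_cast this
        rw [this]
      · exact absurd h6 (hR.ne_zero a ha)
  have hp1 : 1 ≤ p := by omega
  nlinarith

end EP
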