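import Pool.Agent.Helper94.TR.Cfg
import Pool.Agent.Helper94.EP.Top
import Pool.Agent.Helper94.EP.RootsA
import Pool.Agent.Helper43.EP.B
import Pool.Agent.Helper90.EP.G

/-!
Project EP (MP_b8862a_ag), block EP-0: a prime number of weights on the top level gives a configuration of type `A`
or `B`, and no string; the sums of two different weights of the top level are roots.
-/

set_option linter.unusedSectionVars false
set_option linter.unusedVariables false

open Module LieModule LieAlgebra LieAlgebra.IsKilling MTP.MF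

namespace EP

open PF PF.W PF.CC PF.L PG PG.L TR

variable {K : Type*} [Field K] [CharZero K] [IsAlgClosed K]
  {L : Type*} [LieRing L] [LieAlgebra K L] [FiniteDimensional K L] [IsKilling K L]
  {H : LieSubalgebra K L} [H.IsCartanSubalgebra]
  {V : Type*} [AddCommGroup V] [Module K V] [FiniteDimensional K V]
  [LieRingModule L V] [LieModule K L V] {I : Type*} [Fintype I] (B : WB (V := V) H I)

/-- In type `G₂` two roots which vanish on a non-zero element are equal or opposite. -/
theorem g2_line [(rootSystem H).IsIrreducible] {α β : H.root} (h : 3 ≤ (rootSystem H).pairingIn ℤ α β) {D : H}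
    (hD : D ≠ 0) {γ δ : H.root} (h1 : γ.1 D = 0) (h2 : δ.1 D = 0) :
    γ = δ ∨ (rootSystem H).root γ = -(rootSystem H).root δ := by
  have h0 := (rootSystem H).pairingIn_pairingIn_mem_set_of_isCrystal_of_isRed α β
  have h3 : (rootSystem H).pairingIn ℤ α β = 3 := by
    simp only [Set.mem_insert_iff, Set.mem_singleton_iff, Prod.mk.injEq] at h0
    omega
  let _ : (rootSystem H).EmbeddedG2 := RootPairing.EmbeddedG2.ofPairingInThree (rootSystem H) α β h3
  have h4 := RootPairing.EmbeddedG2.span_eq_top (rootSystem H)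
  by_contra hcon
  push Not at hcon
  have hli := RootPairing.IsReduced.linearIndependent (rootSystem H) hcon.1 hcon.2
  have h5 : finrank K (Dual K H) ≤ 2 := by
    have h6 := finrank_range_le_card (R := K) ![RootPairing.EmbeddedG2.longRoot (rootSystem H),
      RootPairing.EmbeddedG2.shortRoot (rootSystem H)]
    rw [Matrix.range_cons, Matrix.range_cons, Matrix.range_empty, Set.union_empty] at h6
    have h7 : ({RootPairing.EmbeddedG2.longRoot (rootSystem H)} ∪ {RootPairing.EmbeddedG2.shortRoot (rootSystem H)} :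
      Set (Dual K H)) = {RootPairing.EmbeddedG2.longRoot (rootSystem H), RootPairing.EmbeddedG2.shortRoot (rootSystem H)} := by
      rw [Set.singleton_union]
    unfold Set.finrank at h6
    rw [h7, h4, finrank_top] at h6
    simpa using h6
  have h6 : Fintype.card (Fin 2) = finrank K (Dual K H) := by
    have := hli.fintype_card_le_finrank
    rw [Fintype.card_fin] at this ⊢
    omega
  have h7 := hli.span_eq_top_of_card_eq_finrank' h6
  apply hD
  rw [← Module.forall_dual_apply_eq_zero_iff K]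
  intro f
  have h8 : f ∈ (⊤ : Submodule K (Dual K H)) := trivial
  rw [← h7] at h8
  induction h8 using Submodule.span_induction with
  | mem x hx =>
    obtain ⟨i, rfl⟩ := hx
    fin_cases i
    · exact h1
    · exact h2
  | zero => rfl
  | add x y _ _ hx hy => rw [LinearMap.add_apply, hx, hy, add_zero]
  | smul a x _ hx => rw [LinearMap.smul_apply, hx, smul_zero]

/-- In type `G₂` a positive root of level zero is simple. -/
theorem g2_simple [(rootSystem H).IsIrreducible] {α β : H.root} (h : 3 ≤ (rootSystem H).pairingIn ℤ α β)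
    (b : (rootSystem H).Base) {D : H} (hdom : Dom b D) (hD : D ≠ 0) {γ : H.root} (hγ : b.IsPos γ) (h1 : γ.1 D = 0) :
    γ ∈ b.support := by
  suffices key : (∃ k : ℕ, (rootSystem H).root γ D = (k : K)) ∧ (γ.1 D = 0 → γ ∈ b.support) from key.2 h1
  refine hγ.induction_on_add (p := fun i => (∃ k : ℕ, (rootSystem H).root i D = (k : K)) ∧ (i.1 D = 0 → i ∈ b.support))
    (fun i hi => ⟨hdom i hi, fun _ => hi⟩) ?_
  rintro i j k hk ⟨⟨m, hm⟩, hi⟩ hj
  obtain ⟨n, hn⟩ := hdom j hj
  have hn' : (rootSystem H).root j D = (n : K) := hn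
  have hkD : (rootSystem H).root k D = ((m + n : ℕ) : K) := by
    rw [hk, LinearMap.add_apply, hm, hn']
    push_cast
    rfl
  refine ⟨⟨m + n, hkD⟩, fun hk0 => ?_⟩
  exfalso
  have h2 : (rootSystem H).root k D = 0 := hk0
  rw [hkD] at h2
  have h3 : m + n = 0 := by exact_mod_cast h2
  have hm0 : m = 0 := by omega
  have hn0 : n = 0 := by omega
  rw [hm0, Nat.cast_zero] at hm
  rw [hn0, Nat.cast_zero] at hn'
  rcases g2_line h hD (γ := i) (δ := j) hm hn' with h4 | h4
  · subst h4
    have h6 : rt (rootSystem H) k i = 4 := by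
      have h7 := rt_spec (H := H) k i
      have h8 := rt_spec (H := H) i i
      rw [rt_self] at h8
      have h9 : (rootSystem H).root k (coroot i.1) = (rootSystem H).root i (coroot i.1) +
          (rootSystem H).root i (coroot i.1) := by
        rw [hk, LinearMap.add_apply]
      have h10 : (rootSystem H).root k (coroot i.1) = ((rt (rootSystem H) k i : ℤ) : K) := h7
      have h11 : (rootSystem H).root i (coroot i.1) = ((2 : ℤ) : K) := h8
      rw [h10, h11] at h9
      have h12 : ((rt (rootSystem H) k i : ℤ) : K) = ((4 : ℤ) : K) := by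
        rw [h9]
        push_cast
        ring
      exact_mod_cast h12
    have h7 := (rootSystem H).pairingIn_pairingIn_mem_set_of_isCrystal_of_isRed k i
    have h8 : (rootSystem H).pairingIn ℤ k i = 4 := h6
    simp only [Set.mem_insert_iff, Set.mem_singleton_iff, Prod.mk.injEq] at h7
    omega
  · rw [h4, neg_add_cancel] at hk
    exact (rootSystem H).ne_zero k hk

/-- the set of weights with the value `c` -/
theorem topG_94 {D : H} {c : K} (h3 : ∀ α β : H.root, α.1 D = 0 → β.1 D = 0 → (rootSystem H).pairingIn ℤ α β ≤ 2)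
    [(rootSystem H).IsIrreducible] : TopG (Ph0 D) (Yc B D c) := by
  have hR : ∀ α : H.root, RS (Ph (rootSystem H)) := fun α => by
    have : Nonempty H.root := ⟨α⟩
    exact rs (rootSystem H)
  constructor
  · intro a ha
    obtain ⟨α, h0, rfl⟩ := mem_Ph0.1 ha
    exact (hR α).ne_zero _ ((mem_Ph _).2 ⟨α, rfl⟩)
  · intro a ha b hb
    obtain ⟨α, h0, rfl⟩ := mem_Ph0.1 ha
    obtain ⟨β, h0', rfl⟩ := mem_Ph0.1 hb
    exact ⟨_, co_vec _ (wt_rt _ β) α⟩
  · intro a ha b hb
    obtain ⟨α, h0, rfl⟩ := mem_Ph0.1 ha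
    obtain ⟨β, h0', rfl⟩ := mem_Ph0.1 hb
    rw [co_vec _ (wt_rt _ β) α, ← vec_sub_smul]
    refine mem_Ph0.2 ⟨(rootSystem H).reflectionPerm α β, ?_, ?_⟩
    · have h1 : (rootSystem H).root ((rootSystem H).reflectionPerm α β) =
          (rootSystem H).root β - (rootSystem H).pairing β α • (rootSystem H).root α := by
        rw [(rootSystem H).root_reflectionPerm, (rootSystem H).reflection_apply_root]
      have h2 : (rootSystem H).root ((rootSystem H).reflectionPerm α β) D =
          (rootSystem H).root β D - (rootSystem H).pairing β α * (rootSystem H).root α D := by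
        rw [h1, LinearMap.sub_apply, LinearMap.smul_apply, smul_eq_mul]
      have h4 : (rootSystem H).root α D = 0 := h0
      have h5 : (rootSystem H).root β D = 0 := h0'
      rw [h4, h5, mul_zero, sub_zero] at h2
      exact h2
    · congr 1
      funext k
      rw [rt_refl_left]
      rfl
  · intro a ha c hc
    obtain ⟨α, h0, rfl⟩ := mem_Ph0.1 ha
    obtain ⟨β, h0', h1⟩ := mem_Ph0.1 hc
    exact (hR α).red _ ((mem_Ph _).2 ⟨α, rfl⟩) c ((mem_Ph _).2 ⟨β, h1⟩)
  · intro a ha b hb
    obtain ⟨α, h0, rfl⟩ := mem_Ph0.1 ha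
    obtain ⟨β, h0', rfl⟩ := mem_Ph0.1 hb
    rw [co_vec _ (wt_rt _ β) α]
    exact_mod_cast h3 β α h0' h0
  · intro a ha x hx
    obtain ⟨α, h0, rfl⟩ := mem_Ph0.1 ha
    obtain ⟨i, h1, rfl⟩ := (mem_Yc B).1 hx
    exact ⟨_, co_vec _ (wt_wt B i) α⟩
  · intro a ha x hx j hj
    obtain ⟨α, h0, rfl⟩ := mem_Ph0.1 ha
    obtain ⟨i, hi, rfl⟩ := (mem_Yc B).1 hx
    rw [co_vec _ (wt_wt B i) α] at hj
    have hj' : (j : ℤ) ≤ wt B i α := by exact_mod_cast hj
    obtain ⟨b, n, h1, h2⟩ := string B α i
    have h3 : wt B i α = n - 2 * b := by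
      have h4 : ((wt B i α : ℤ) : K) = ((n - 2 * b : ℤ) : K) := by
        rw [← wt_spec, h1]
        push_cast
        ring
      exact_mod_cast h4
    obtain ⟨i', hi'⟩ := h2 (b + j) (by omega)
    refine (mem_Yc B).2 ⟨i', ?_, ?_⟩
    · rw [hi' D, h0, mul_zero, add_zero, hi]
    · rw [wt_of B (i := i) (α := α) (k := -(j : ℤ)) (fun x => by
        rw [hi' x]
        push_cast
        ring)]
      rw [neg_smul, ← sub_eq_add_neg, vec_sub_smul]
      simp

open Classical in
/-- **The configuration of the top level.** -/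
theorem config_of_ep94 (hirr : ∀ W : Submodule K V, (∀ x : L, ∀ u ∈ W, ⁅x, u⁆ ∈ W) → W = ⊥ ∨ W = ⊤)
    (hfaith : ∀ x : L, (∀ u : V, ⁅x, u⁆ = 0) → x = 0) [Nonempty I] [(rootSystem H).IsIrreducible]
    (b : (rootSystem H).Base) {D : H}
    (hD : Dom b D) (hD0 : D ≠ 0) {c : K} (hV : ∀ i, ∃ n : ℕ, B.w i D = c - n) (hne : ∃ i, B.w i D = c) {s : ℕ}
    (hs : (Finset.univ.filter fun i => B.w i D = c).card = s) (hp : s.Prime) (h5 : 5 ≤ s) :
    (∃ t α, B.w t D = c ∧ α.1 D = 0 ∧ wt B t α + 1 = s) ∨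
    ((∀ α β : H.root, (rootSystem H).pairingIn ℤ α β ≤ 2) ∧
    ∃ ν : ℕ → EuclideanSpace ℝ H.root, (∀ i, B.w i D = c → ∃ j < s, ν j = vec (wt B i)) ∧
      (∀ j < s, ∃ i, B.w i D = c ∧ ν j = vec (wt B i)) ∧
      (∀ i < s, ∀ j < s, ν i = ν j → i = j) ∧
      (IsA (Ph (rootSystem H)) s ν ∨ IsB (Ph (rootSystem H)) s ν)) := by
  obtain ⟨t, ht1, ht2, ht3⟩ := levi B hirr hfaith b hD
  have htD : B.w t D = c := by
    obtain ⟨i, hi⟩ := hne
    obtain ⟨κ, hκ⟩ := ht1 i
    have h6 : ∀ j ∈ b.support, ∃ k : ℕ, (rootSystem H).root j D = (k : K) := hD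
    choose! k hk using h6
    have h7 : B.w t D = c + ((∑ j ∈ b.support, κ j * k j : ℕ) : K) := by
      have h8 : B.w i D = B.w t D - ((∑ j ∈ b.support, κ j * k j : ℕ) : K) := by
        rw [hκ, LinearMap.sub_apply, LinearMap.sum_apply]
        congr 1
        push_cast
        refine Finset.sum_congr rfl fun j hj => ?_
        rw [LinearMap.smul_apply, hk j hj, smul_eq_mul]
      rw [hi] at h8
      linear_combination -h8
    generalize (∑ j ∈ b.support, κ j * k j : ℕ) = n at h7
    obtain ⟨m, hm⟩ := hV t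
    rw [hm] at h7
    have : ((m + n : ℕ) : K) = 0 := by
      push_cast
      linear_combination -h7
    have h10 : m + n = 0 := by exact_mod_cast this
    have h11 : m = 0 := by omega
    rw [hm, h11]
    simp
  rw [htD, hs] at ht3
  obtain ⟨hpos, α, hα, hαD, hm, hle⟩ := prime_root B b ht2 hp ht3
  -- the pairings of the roots of level zero
  have h3 : ∀ α β : H.root, α.1 D = 0 → β.1 D = 0 → (rootSystem H).pairingIn ℤ α β ≤ 2 := by
    intro γ δ h1 h2
    by_contra hcon
    push Not at hcon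
    rcases g2_line hcon hD0 h1 h2 with h4 | h4
    · subst h4
      rw [(rootSystem H).pairingIn_same] at hcon
      norm_num at hcon
    · have h6 : rt (rootSystem H) γ δ = -2 := by
        have h7 := rt_spec (H := H) γ δ
        have h8 := rt_spec (H := H) δ δ
        rw [rt_self] at h8
        have h9 : (rootSystem H).root γ (coroot δ.1) = -(rootSystem H).root δ (coroot δ.1) := by
          rw [h4, LinearMap.neg_apply]
        have h10 : (rootSystem H).root γ (coroot δ.1) = ((rt (rootSystem H) γ δ : ℤ) : K) := h7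
        have h11 : (rootSystem H).root δ (coroot δ.1) = ((2 : ℤ) : K) := h8
        rw [h10, h11] at h9
        exact_mod_cast h9
      have h7 : rt (rootSystem H) γ δ = (rootSystem H).pairingIn ℤ γ δ := rfl
      rw [← h7, h6] at hcon
      norm_num at hcon
  have hch : b.flip.height α ≤
      ((Finset.univ.filter fun β : H.root => b.IsPos β ∧ β.1 D = 0 ∧ B.w t (coroot β.1) ≠ 0).card : ℤ) := by
    have hw0 : B.w t (coroot α.1) ≠ 0 := by
      rw [wt_spec]
      intro h
      have : wt B t α = 0 := by exact_mod_cast h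
      omega
    by_cases hG : ∀ α β : H.root, (rootSystem H).pairingIn ℤ α β ≤ 2
    · exact coroot_count b hD hG (B.w t) ht2 α hα hαD hw0
    · push Not at hG
      obtain ⟨γ, δ, hγδ⟩ := hG
      have h6 : α ∈ b.flip.support := g2_simple (h := hγδ) b hD hD0 hα hαD
      rw [RootPairing.Base.height_one_of_mem_support h6]
      have h7 : 0 < (Finset.univ.filter fun β : H.root => b.IsPos β ∧ β.1 D = 0 ∧ B.w t (coroot β.1) ≠ 0).card := by
        rw [Finset.card_pos]
        exact ⟨α, by rw [Finset.mem_filter]; exact ⟨Finset.mem_univ _, hα, hαD, hw0⟩⟩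
      exact_mod_cast h7
  have hT := topG_94 B (D := D) (c := c) h3
  have hlam : vec (wt B t) ∈ Yc B D c := (mem_Yc B).2 ⟨t, htD, rfl⟩
  have ha : vec (rt (rootSystem H) α) ∈ Ph0 D := mem_Ph0.2 ⟨α, hαD, rfl⟩
  have hco : co (vec (rt (rootSystem H) α)) (vec (wt B t)) = wt B t α := co_vec _ (wt_wt B t) α
  have hYs : (Yc B D c).card ≤ s := by
    rw [← hs]
    exact Finset.card_image_le
  have hcount : (b.flip.height α : ℤ) ≤ ((PP (Ph0 D) (vec (wt B t))).card : ℤ) := by
    refine hch.trans ?_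
    have h7 : (Finset.univ.filter fun β : H.root => b.IsPos β ∧ β.1 D = 0 ∧ B.w t (coroot β.1) ≠ 0).card =
        ((Finset.univ.filter fun β : H.root => b.IsPos β ∧ β.1 D = 0 ∧ B.w t (coroot β.1) ≠ 0).image
          fun β => vec (rt (rootSystem H) β)).card := by
      rw [Finset.card_image_of_injective]
      intro β γ h
      exact rt_inj (rootSystem H) (vec_inj h)
    rw [h7]
    have h8 : ((Finset.univ.filter fun β : H.root => b.IsPos β ∧ β.1 D = 0 ∧ B.w t (coroot β.1) ≠ 0).image
          fun β => vec (rt (rootSystem H) β)) ⊆ PP (Ph0 D) (vec (wt B t)) := by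
      intro v hv
      rw [Finset.mem_image] at hv
      obtain ⟨β, hβ, rfl⟩ := hv
      rw [Finset.mem_filter] at hβ
      obtain ⟨-, hβ1, hβ2, hβ3⟩ := hβ
      unfold PP
      rw [Finset.mem_filter]
      refine ⟨mem_Ph0.2 ⟨β, hβ2, rfl⟩, ?_⟩
      rw [co_vec _ (wt_wt B t) β]
      have h9 := hpos β hβ1
      have h10 : wt B t β ≠ 0 := by
        intro h
        apply hβ3
        rw [wt_spec, h]
        simp
      have h11 : 1 ≤ wt B t β := by omega
      exact_mod_cast h11
    exact_mod_cast Finset.card_le_card h8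
  obtain ⟨m, hm'⟩ := Int.eq_ofNat_of_zero_le (show 0 ≤ wt B t α by omega)
  have hm1 : 1 ≤ m := by
    rw [hm'] at hm
    exact_mod_cast hm
  have hcom : co (vec (rt (rootSystem H) α)) (vec (wt B t)) = m := by
    rw [hco, hm']
    norm_cast
  have h7 : s ≤ m + (PP (Ph0 D) (vec (wt B t))).card := by
    rw [hm'] at hle
    have : (s : ℤ) ≤ (m : ℤ) + ((PP (Ph0 D) (vec (wt B t))).card : ℤ) := by
      linarith
    exact_mod_cast this
  rcases hT.config hlam ha hcom hm1 hYs h7 (hp.odd_of_ne_two (by omega)) h5 with h8 | ⟨⟨β', hβ', hβ1, hβne⟩, hYcard, ν, hν1, hν2, hν3, hν4⟩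
  · left
    refine ⟨t, α, htD, hαD, ?_⟩
    rw [hm', ← h8]
    norm_cast
  · right
    refine ⟨?_, ν, ?_, ?_, hν2, ?_⟩
    · by_contra hG
      push Not at hG
      obtain ⟨γ, δ, hγδ⟩ := hG
      obtain ⟨β, hβD, hβ⟩ := mem_Ph0.1 hβ'
      rcases g2_line hγδ hD0 hβD hαD with h9 | h9
      · subst h9
        exact hβne hβ.symm
      · have h10 : wt B t β = -wt B t α := by
          have h11 : (rootSystem H).coroot β = -(rootSystem H).coroot α := by
            have h12 : β = (rootSystem H).reflectionPerm α α := by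
              apply (rootSystem H).root.injective
              rw [h9, (rootSystem H).root_reflectionPerm, (rootSystem H).reflection_apply_self]
            rw [h12, (rootSystem H).coroot_reflectionPerm, (rootSystem H).coreflection_apply_self]
          have h13 : (coroot β.1 : H) = -coroot α.1 := h11
          have h14 : ((wt B t β : ℤ) : K) = ((-wt B t α : ℤ) : K) := by
            rw [← wt_spec, h13, map_neg, wt_spec]
            push_cast
            rfl
          exact_mod_cast h14
        rw [← hβ, co_vec _ (wt_wt B t) β, h10] at hβ1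
        have h15 : (1 : ℤ) ≤ -wt B t α := by exact_mod_cast hβ1
        omega
    · intro i hi
      obtain ⟨j, hj, h6⟩ := hν3 _ ((mem_Yc B).2 ⟨i, hi, rfl⟩)
      exact ⟨j, hj, h6⟩
    · intro j hj
      obtain ⟨i, hi, h6⟩ := (mem_Yc B).1 (hν1 j hj)
      exact ⟨i, hi, h6.symm⟩
    · have hsub : Ph0 D ⊆ Ph (rootSystem H) := by
        intro v hv
        obtain ⟨α, -, h6⟩ := mem_Ph0.1 hv
        exact (mem_Ph _).2 ⟨α, h6⟩
      rcases hν4 with h6 | h6
      · exact Or.inl (IsA.mono hsub h6)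
      · exact Or.inr (IsB.mono hsub h6)

variable {ω : LinearMap.BilinForm K V} {ℓ : EuclideanSpace ℝ H.root →ₗ[ℝ] ℝ}

open Classical in
/-- **A prime number of weights on the top level**, `2 p < N`, `2 N ≤ p ^ 2`. -/
theorem ep_config94 [Nonempty I] [Nonempty H.root] [(rootSystem H).IsIrreducible]
    (hirr : ∀ W : Submodule K V, (∀ x : L, ∀ u ∈ W, ⁅x, u⁆ ∈ W) → W = ⊥ ∨ W = ⊤)
    (hfaith : ∀ x : L, (∀ u : V, ⁅x, u⁆ = 0) → x = 0)
    (hnd : ω.Nondegenerate) (hsk : ∀ (x : L) (u v : V), ω ⁅x, u⁆ v = - ω u ⁅x, v⁆)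
    {D : H} (hℓ : IsLev D ℓ) (hint : ∀ α : H.root, ∃ k : ℤ, α.1 D = (k : K)) {q : ℚ} (hq : 0 < q)
    (hw : ∀ i, ∃ m : ℕ, B.w i D = ((q - m : ℚ) : K)) {p : ℕ} (pp : p.Prime)
    (hs : (Finset.univ.filter fun i => B.w i D = (q : K)).card = p) (h2 : 2 * p < Fintype.card I)
    (h3 : 2 * Fintype.card I ≤ p ^ 2) :
    ∃ ν, Ep (Ph (rootSystem H)) (Xw B) ℓ (q : ℝ) p ν ∧ IsA (Ph (rootSystem H)) p ν := by
  have hR : RS (Ph (rootSystem H)) := rs (rootSystem H)
  have hS : Sat (Ph (rootSystem H)) (Xw B) := sat B hirr hnd hsk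
  have hp5 : 5 ≤ p := by
    have h4 : 4 * p < p * p := by nlinarith
    have h5 := lt_of_mul_lt_mul_right h4 (Nat.zero_le p)
    omega
  have hlev : ∀ i, ∃ m : ℕ, B.w i D = ((q - m : ℚ) : K) ∧ ℓ (vec (wt B i)) = (q : ℝ) - m := by
    intro i
    obtain ⟨m, hm⟩ := hw i
    refine ⟨m, hm, ?_⟩
    rw [hℓ (B.w i) (wt B i) (fun α => wt_spec B i α) _ hm]
    push_cast
    rfl
  have htop : ∀ i, ℓ (vec (wt B i)) = (q : ℝ) ↔ B.w i D = (q : K) := by
    intro i
    obtain ⟨m, h4, h5⟩ := hlev i
    rw [h4, h5]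
    constructor
    · intro h6
      have h7 : (m : ℝ) = 0 := by linarith
      have h8 : m = 0 := by exact_mod_cast h7
      rw [h8]
      simp
    · intro h6
      have h7 : ((m : ℕ) : K) = 0 := by
        push_cast at h6
        linear_combination -h6
      have h8 : m = 0 := by exact_mod_cast h7
      rw [h8]
      simp
  have hne : ∃ i, B.w i D = (q : K) := by
    by_contra! hcon
    rw [Finset.filter_false_of_mem (fun i _ => hcon i), Finset.card_empty] at hs
    omega
  have hD0 : D ≠ 0 := by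
    rintro rfl
    obtain ⟨i, hi⟩ := hne
    rw [map_zero] at hi
    have : (q : K) = ((0 : ℚ) : K) := by rw [← hi]; simp
    have : q = 0 := by exact_mod_cast this
    exact hq.ne' this
  have hXc : (Xw B).card ≤ Fintype.card I := by
    have h4 : Xw B ⊆ Finset.univ.image (fun i : I => vec (wt B i)) := by
      intro v hv
      obtain ⟨i, hi⟩ := (mem_Xw B).1 hv
      rw [Finset.mem_image]
      exact ⟨i, Finset.mem_univ _, hi⟩
    exact (Finset.card_le_card h4).trans Finset.card_image_le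
  have hsm : 2 * (Xw B).card ≤ p ^ 2 := by omega
  have hle : ∀ x ∈ Xw B, ℓ x ≤ (q : ℝ) := by
    intro x hx
    obtain ⟨i, rfl⟩ := (mem_Xw B).1 hx
    obtain ⟨m, -, h5⟩ := hlev i
    rw [h5]
    have : (0 : ℝ) ≤ m := Nat.cast_nonneg m
    linarith
  have hqr : (0 : ℝ) < (q : ℝ) := by exact_mod_cast hq
  obtain ⟨b, hD⟩ := exists_dom94 hint
  rcases config_of_ep94 B hirr hfaith b hD hD0 (c := (q : K)) (fun i => by
    obtain ⟨m, hm⟩ := hw i
    exact ⟨m, by rw [hm]; push_cast; rfl⟩) hne hs pp hp5 with ⟨t, α, htD, hα, hst⟩ | ⟨hpair, ν, h4, h5, h6, h8⟩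
  · exfalso
    obtain ⟨m, hm⟩ := Int.eq_ofNat_of_zero_le (show 0 ≤ wt B t α by omega)
    refine no_string (c := (q : ℝ)) (ℓ := ℓ) (lam := vec (wt B t)) (m := m) hR hS hqr hle ((mem_Ph _).2 ⟨α, rfl⟩) ?_
      ((mem_Xw B).2 ⟨t, rfl⟩) ((htop t).2 htD) ?_ (p := p) ?_ hsm
    · have h9 : α.1 D = ((0 : ℤ) : K) := by rw [hα]; simp
      have h10 := hℓ.root h9
      rw [h10]
      simp
    · rw [co_vec _ (wt_wt B t) α, hm]
      norm_cast
    · rw [hm] at hst
      exact_mod_cast hst
  · have C : Ep (Ph (rootSystem H)) (Xw B) ℓ (q : ℝ) p ν := by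
      refine ⟨hR, hS, ?_, hqr, hle, ?_, h6, hp5, hsm⟩
      · intro a ha b hb
        obtain ⟨α, rfl⟩ := (mem_Ph _).1 ha
        obtain ⟨β, rfl⟩ := (mem_Ph _).1 hb
        rw [co_vec _ (wt_rt _ β) α]
        exact_mod_cast hpair β α
      · intro x
        constructor
        · rintro ⟨hx, hx1⟩
          obtain ⟨i, rfl⟩ := (mem_Xw B).1 hx
          obtain ⟨j, hj, h10⟩ := h4 i ((htop i).1 hx1)
          exact ⟨j, hj, h10.symm⟩
        · rintro ⟨j, hj, rfl⟩
          obtain ⟨i, hi, h10⟩ := h5 j hj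
          rw [h10]
          exact ⟨(mem_Xw B).2 ⟨i, rfl⟩, (htop i).2 hi⟩
    refine ⟨ν, C, ?_⟩
    rcases h8 with h8 | h8
    · exact h8
    · exact absurd h8 C.not_B

end EP
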