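import Pool.Agent.Helper94.EP.Cfg
import Pool.Agent.Helper95.EP.Typ

/-!
Project EP (MP_b8862a_ag): two roots whose level is twice the top level.
-/

set_option linter.unusedSectionVars false
set_option linter.unusedVariables false

open Module LieModule LieAlgebra LieAlgebra.IsKilling MTP.MF

namespace EP

open PF PF.W PF.CC PF.L PG PG.L TR

section euclid

variable {E : Type*} [NormedAddCommGroup E] [InnerProductSpace ℝ E] {Φ X : Finset E} {ℓ : E →ₗ[ℝ] ℝ} {c l : ℝ} {p : ℕ}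
  {ν : ℕ → E}

/-- The sums of two different weights of the top level are roots. -/
theorem EA.sum_mem94 (A : EA Φ X ℓ c p ν l) : ∀ i < p, ∀ j < p, i ≠ j → ν i + ν j ∈ Φ := by
  have B : EB Φ X ℓ c p ν l := ⟨A, fun g hg h0 => A.pos_types A.typ hg h0, fun g hg h0 => A.zero_types hg h0⟩
  exact B.sum_mem

end euclid

variable {K : Type*} [Field K] [CharZero K] [IsAlgClosed K]
  {L : Type*} [LieRing L] [LieAlgebra K L] [FiniteDimensional K L] [IsKilling K L]
  {H : LieSubalgebra K L} [H.IsCartanSubalgebra]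
  {V : Type*} [AddCommGroup V] [Module K V] [FiniteDimensional K V]
  [LieRingModule L V] [LieModule K L V] {I : Type*} [Fintype I] (B : WB (V := V) H I)
  {ω : LinearMap.BilinForm K V}

/-- **Two roots whose level is twice the top level.** -/
theorem roots94 [Nonempty I] [Nonempty H.root] [(rootSystem H).IsIrreducible]
    (hirr : ∀ W : Submodule K V, (∀ x : L, ∀ u ∈ W, ⁅x, u⁆ ∈ W) → W = ⊥ ∨ W = ⊤)
    (hfaith : ∀ x : L, (∀ u : V, ⁅x, u⁆ = 0) → x = 0)
    (hnd : ω.Nondegenerate) (hsk : ∀ (x : L) (u v : V), ω ⁅x, u⁆ v = - ω u ⁅x, v⁆)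
    {D : H} (hint : ∀ α : H.root, ∃ k : ℤ, α.1 D = (k : K)) {q : ℚ} (hq : 0 < q)
    (hw : ∀ i, ∃ m : ℕ, B.w i D = ((q - m : ℚ) : K)) {p : ℕ} (pp : p.Prime) (p3 : 3 ≤ p)
    (hp : Nat.card {i // B.w i D = (q : K)} = p) (h2 : 2 * p < Fintype.card I)
    (h3 : 2 * Fintype.card I ≤ p ^ 2) : ∃ α β : H.root, α ≠ β ∧ α.1 D = (2 * q : K) ∧ β.1 D = (2 * q : K) := by
  classical
  obtain ⟨ℓ, hℓ0⟩ := PG.exists_lev D
  have hℓ : IsLev D ℓ := hℓ0
  have hs : (Finset.univ.filter fun i => B.w i D = (q : K)).card = p := by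
    rw [← hp, Nat.card_eq_fintype_card, Fintype.card_subtype]
  obtain ⟨ν, C, hA⟩ := ep_config94 B hirr hfaith hnd hsk hℓ hint hq hw pp hs h2 h3
  obtain ⟨l, A⟩ := C.toEA hA
  have h5 := C.five
  have key : ∀ i < p, ∀ j < p, i ≠ j → ∃ α : H.root, vec (rt (rootSystem H) α) = ν i + ν j ∧ α.1 D = (2 * q : K) := by
    intro i hi j hj hij
    obtain ⟨α, hα⟩ := (mem_Ph _).1 (A.sum_mem94 i hi j hj hij)
    refine ⟨α, hα, ?_⟩
    obtain ⟨k, hk⟩ := hint α
    have h6 := hℓ.root hk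
    rw [hα, map_add, (C.mem hi).2, (C.mem hj).2] at h6
    have h7 : (k : ℚ) = 2 * q := by
      have h8 : ((k : ℚ) : ℝ) = ((2 * q : ℚ) : ℝ) := by
        push_cast
        linarith
      exact_mod_cast h8
    rw [hk]
    have h9 : ((k : ℚ) : K) = ((2 * q : ℚ) : K) := by rw [h7]
    push_cast at h9
    exact h9
  obtain ⟨α, hα, hα'⟩ := key 0 (by omega) 1 (by omega) (by omega)
  obtain ⟨β, hβ, hβ'⟩ := key 0 (by omega) 2 (by omega) (by omega)
  refine ⟨α, β, ?_, hα', hβ'⟩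
  rintro rfl
  rw [hα] at hβ
  have h6 : ν 1 = ν 2 := by simpa using hβ
  have := C.inj 1 (by omega) 2 (by omega) h6
  omega

end EP
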